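import Pool.Agent.W2helper86.LG.Corr

/-!
# Circuits

Boolean circuits with AND, OR (fan-in two) and NOT gates whose size is the number of AND and OR
gates, and the bound for their correlation with parities.
-/

set_option autoImplicit false

namespace Pool.Agent.W2helper86.LG

open Finset

/-- A line of a circuit on `m` inputs: a constant, an input, or a gate whose operands are the
values of the lines with the given numbers. -/
inductive Gate (m : ℕ) where
  | const (b : Bool) : Gate m
  | inp (i : Fin m) : Gate m
  | not (a : ℕ) : Gate m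
  | and (a b : ℕ) : Gate m
  | or (a b : ℕ) : Gate m

variable {m : ℕ}

/-- The value of a line, given the input `x` and the values `v` of the lines. -/
def Gate.eval (x : Fin m → Bool) (v : ℕ → Bool) : Gate m → Bool
  | .const b => b
  | .inp i => x i
  | .not a => !(v a)
  | .and a b => v a && v b
  | .or a b => v a || v b

/-- The operands have numbers below `i`. -/
def Gate.Below (i : ℕ) : Gate m → Prop
  | .const _ => True
  | .inp _ => True
  | .not a => a < i
  | .and a b => a < i ∧ b < i
  | .or a b => a < i ∧ b < i

/-- AND and OR gates cost `1`, everything else is free. -/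
def Gate.weight : Gate m → ℕ
  | .const _ => 0
  | .inp _ => 0
  | .not _ => 0
  | .and _ _ => 1
  | .or _ _ => 1

/-- A Boolean circuit on `m` inputs. The operands of each line are earlier lines. -/
structure Circuit (m : ℕ) where
  /-- the number of lines -/
  len : ℕ
  /-- the lines -/
  gate : ℕ → Gate m
  /-- the number of the output line -/
  out : ℕ
  /-- acyclicity -/
  below : ∀ i < len, (gate i).Below i
  /-- the output is one of the lines -/
  out_lt : out < len

/-- The value of line number `i` on input `x`. -/
def Circuit.val (C : Circuit m) (x : Fin m → Bool) : ℕ → Bool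
  | i => (C.gate i).eval x (fun j => if _h : j < i then C.val x j else false)
termination_by i => i

/-- The value computed by the circuit. -/
def Circuit.eval (C : Circuit m) (x : Fin m → Bool) : Bool := C.val x C.out

/-- The size of a circuit: the number of its AND and OR gates. -/
def Circuit.size (C : Circuit m) : ℕ := ∑ i ∈ range C.len, (C.gate i).weight

theorem Circuit.val_eq (C : Circuit m) (x : Fin m → Bool) {i : ℕ} (hi : i < C.len) :
    C.val x i = (C.gate i).eval x (C.val x) := by
  rw [Circuit.val]
  have hb := C.below i hi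
  cases h : C.gate i with
  | const b => rfl
  | inp j => rfl
  | not a =>
    rw [h] at hb
    simp only [Gate.Below] at hb
    simp [Gate.eval, hb]
  | and a b =>
    rw [h] at hb
    simp only [Gate.Below] at hb
    simp [Gate.eval, hb]
  | or a b =>
    rw [h] at hb
    simp only [Gate.Below] at hb
    simp [Gate.eval, hb]

/-- the parameters of the straight-line program of a circuit -/
def gA (C : Circuit m) (i : ℕ) : Fn (Fin m) :=
  match C.gate i with
  | .const b => fun _ => b
  | .inp j => lit j
  | .not a => fun x => C.val x a
  | .and a _ => fun x => C.val x a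
  | .or a _ => fun x => C.val x a

/-- the parameters of the straight-line program of a circuit -/
def gB (C : Circuit m) (i : ℕ) : Fn (Fin m) :=
  match C.gate i with
  | .const _ => fun _ => true
  | .inp _ => fun _ => true
  | .not _ => fun _ => true
  | .and _ b => fun x => C.val x b
  | .or _ b => fun x => C.val x b

/-- the parameters of the straight-line program of a circuit -/
def gp (C : Circuit m) (i : ℕ) : Bool :=
  match C.gate i with
  | .or _ _ => true
  | _ => false

/-- the parameters of the straight-line program of a circuit -/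
def gr (C : Circuit m) (i : ℕ) : Bool :=
  match C.gate i with
  | .or _ _ => true
  | .not _ => true
  | _ => false

/-- the straight-line program of a circuit -/
def toSL (C : Circuit m) : SL (univ : Finset (Fin m)) where
  s := C.len
  F := fun i x => C.val x i
  A := gA C
  B := gB C
  p := gp C
  q := gp C
  r := gr C
  hA := by
    intro i hi
    have hb := C.below i hi
    unfold gA
    cases h : C.gate i with
    | const b => exact Or.inl (Or.inl ⟨b, fun _ => rfl⟩)
    | inp j => exact Or.inl (Or.inr ⟨j, mem_univ j, Opp.refl _⟩)
    | not a => rw [h] at hb; exact Or.inr ⟨a, hb, Opp.refl _⟩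
    | and a b => rw [h] at hb; exact Or.inr ⟨a, hb.1, Opp.refl _⟩
    | or a b => rw [h] at hb; exact Or.inr ⟨a, hb.1, Opp.refl _⟩
  hB := by
    intro i hi
    have hb := C.below i hi
    unfold gB
    cases h : C.gate i with
    | const b => exact Or.inl (Or.inl ⟨true, fun _ => rfl⟩)
    | inp j => exact Or.inl (Or.inl ⟨true, fun _ => rfl⟩)
    | not a => exact Or.inl (Or.inl ⟨true, fun _ => rfl⟩)
    | and a b => rw [h] at hb; exact Or.inr ⟨b, hb.2, Opp.refl _⟩
    | or a b => rw [h] at hb; exact Or.inr ⟨b, hb.2, Opp.refl _⟩
  hF := by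
    intro i hi x
    show C.val x i = _
    rw [C.val_eq x hi]
    unfold gA gB gp gr
    cases h : C.gate i with
    | const b => simp [Gate.eval]
    | inp j => simp [Gate.eval, lit]
    | not a => simp [Gate.eval]
    | and a b => simp [Gate.eval]
    | or a b => simp [Gate.eval]

theorem cost_toSL (C : Circuit m) : cost (toSL C) ≤ C.size := by
  unfold cost Circuit.size
  have h1 : ∀ i ∈ ess (toSL C), 1 ≤ (C.gate i).weight := by
    intro i hi
    obtain ⟨hs, he⟩ := mem_ess.mp hi
    have hb := C.below i hs
    have hv : ∀ x, (toSL C).F i x = (C.gate i).eval x (C.val x) := fun x => C.val_eq x hs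
    cases h : C.gate i with
    | const b => exact absurd (Or.inl ⟨b, fun x => by rw [hv x, h]; rfl⟩) he.1
    | inp j =>
      exact absurd (Or.inr ⟨j, mem_univ j, false, fun x => by rw [hv x, h]; simp [Gate.eval, lit]⟩)
        he.1
    | not a =>
      rw [h] at hb
      exact absurd ⟨true, fun x => by rw [hv x, h]; simp [Gate.eval, toSL]⟩ (he.2 a hb)
    | and a b => exact le_rfl
    | or a b => exact le_rfl
  have h2 : ess (toSL C) ⊆ range C.len := by
    intro i hi
    exact mem_range.mpr (mem_ess.mp hi).1
  calc (ess (toSL C)).card = ∑ _i ∈ ess (toSL C), 1 := by simp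
    _ ≤ ∑ i ∈ ess (toSL C), (C.gate i).weight := sum_le_sum h1
    _ ≤ _ := sum_le_sum_of_subset h2

theorem cost_rest_le {V : Type} [DecidableEq V] {X : Finset V} (C : SL X) (v : V) (c : Bool) :
    cost (C.rest v c) ≤ cost C := by
  have := cost_rest C v c ∅ (by simp)
  simpa using this

theorem corr_sub {V : Type} [DecidableEq V] [Fintype V] {A : ℝ} (h1 : 1 ≤ A)
    (h2 : A ^ 2 ≤ 1 + A) (W : Finset V) :
    ∀ (t : ℕ) (X : Finset V), W ⊆ X → (X \ W).card = t → ∀ (n : ℕ) (C : SL X), cost C ≤ n →
      ∀ o < C.s, |cr W (C.F o)| ≤
        2 ^ Fintype.card V * (A ^ n * ((1 + A) / (2 * A ^ 3)) ^ (W.card - 2)) := by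
  obtain ⟨hD0, -, -⟩ := num h1 h2
  intro t
  induction t with
  | zero =>
    intro X hWX hc n C hn o ho
    have hX : X = W := by
      rw [card_eq_zero, sdiff_eq_empty_iff_subset] at hc
      exact subset_antisymm hc hWX
    subst hX
    refine (corr_bound h1 h2 X.card X rfl (cost C) C rfl o ho).trans ?_
    apply mul_le_mul_of_nonneg_left _ (by positivity)
    apply mul_le_mul_of_nonneg_right _ (by positivity)
    exact pow_le_pow_right₀ h1 hn
  | succ t ih =>
    intro X hWX hc n C hn o ho
    obtain ⟨v, hv⟩ := card_pos.mp (show 0 < (X \ W).card by omega)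
    obtain ⟨hvX, hvW⟩ := mem_sdiff.mp hv
    have hsub : W ⊆ X.erase v := by
      intro u hu
      refine mem_erase.mpr ⟨?_, hWX hu⟩
      rintro rfl
      exact hvW hu
    have hcard : (X.erase v \ W).card = t := by
      rw [erase_sdiff_comm, card_erase_of_mem hv]
      omega
    have hb : ∀ c, |cr W (rest v c (C.F o))| ≤
        2 ^ Fintype.card V * (A ^ n * ((1 + A) / (2 * A ^ 3)) ^ (W.card - 2)) := fun c =>
      ih (X.erase v) hsub hcard n (C.rest v c) ((cost_rest_le C v c).trans hn) o ho
    have h := cr_split' hvW (C.F o)
    have h3 : |2 * cr W (C.F o)| ≤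
        2 * (2 ^ Fintype.card V * (A ^ n * ((1 + A) / (2 * A ^ 3)) ^ (W.card - 2))) := by
      rw [h]
      refine (abs_add_le _ _).trans ?_
      linarith [hb false, hb true]
    rw [abs_mul, abs_two] at h3
    linarith

/-- **Correlation of circuits with parities**: for `1 ≤ A`, `A² ≤ 1 + A`, a circuit with at most `n`
AND and OR gates has correlation at most `A ^ n * ((1 + A) / (2 A³)) ^ (w - 2)` with the parity of
any `w` input variables. -/
theorem corr_circ {A : ℝ} (h1 : 1 ≤ A) (h2 : A ^ 2 ≤ 1 + A) (C : Circuit m) (n : ℕ)
    (hn : C.size ≤ n) (W : Finset (Fin m)) :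
    |cr W C.eval| ≤ 2 ^ m * (A ^ n * ((1 + A) / (2 * A ^ 3)) ^ (W.card - 2)) := by
  have h := corr_sub h1 h2 W _ univ (subset_univ W) rfl n (toSL C) ((cost_toSL C).trans hn) C.out
    C.out_lt
  rw [Fintype.card_fin] at h
  exact h

end Pool.Agent.W2helper86.LG
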