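import Pool.Agent.W2helper86.LG.Dist
import Pool.Agent.H38.NP.Api

/-!
# The generator is computable in polynomial time
-/

set_option autoImplicit false

namespace Pool.Agent.W2helper86.LG

open Pool.Agent.H38.NP

variable {α : Type} [Enc α]

theorem sz_bits (l : List Bool) : sz l = 3 * l.length := by
  induction l with
  | nil => simp
  | cons b l ih => rw [sz_cons, sz_bool, ih, List.length_cons]; ring

theorem pt_half : PT fun p : ℕ × ℕ => (fun x : ℕ => x / 2)^[p.2] p.1 := by
  refine PT.iterate (step := fun _ (x : ℕ) => x / 2) (by fun_prop) (by fun_prop) (by fun_prop)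
    (B := fun p => sz p.1) (PT.fst PT.id').pb fun p i _ => ?_
  rw [sz_nat, sz_nat]
  induction i with
  | zero => simp
  | succ i ih =>
    rw [Function.iterate_succ_apply']
    exact (Nat.div_le_self _ _).trans (ih (by omega))

theorem iterate_half (m i : ℕ) : (fun x : ℕ => x / 2)^[i] m = m / 2 ^ i := by
  induction i with
  | zero => simp
  | succ i ih => rw [Function.iterate_succ_apply', ih, Nat.div_div_eq_div_mul, pow_succ]

theorem log_eq (m : ℕ) : (List.range m).countP
    (fun i => decide (1 ≤ (fun x : ℕ => x / 2)^[i + 1] m)) = Nat.log 2 m := by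
  rcases Nat.eq_zero_or_pos m with rfl | hm
  · simp
  have h1 : ∀ i, (1 ≤ (fun x : ℕ => x / 2)^[i + 1] m) ↔ i < Nat.log 2 m := by
    intro i
    rw [iterate_half, Nat.le_div_iff_mul_le (by positivity), one_mul, ← Nat.succ_le_iff,
      Nat.le_log_iff_pow_le (by norm_num) (by omega)]
  have h2 : ∀ n L : ℕ, (List.range n).countP (fun i => decide (i < L)) = min n L := by
    intro n L
    induction n with
    | zero => simp
    | succ n ih =>
      rw [List.range_succ, List.countP_append, ih]
      simp only [List.countP_singleton, decide_eq_true_eq]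
      split_ifs <;> omega
  have h3 : (fun i => decide (1 ≤ (fun x : ℕ => x / 2)^[i + 1] m)) =
      fun i => decide (i < Nat.log 2 m) := by
    funext i
    rw [decide_eq_decide]
    exact h1 i
  rw [h3, h2]
  exact min_eq_right (Nat.log_le_self 2 m)

@[fun_prop] theorem pt_log {f : α → ℕ} (hf : PT f) : PT fun a => Nat.log 2 (f a) := by
  have h : PT fun m : ℕ => (List.range m).countP
      (fun i => decide (1 ≤ (fun x : ℕ => x / 2)^[i + 1] m)) := by
    refine PT.countP (f := fun (m i : ℕ) => decide (1 ≤ (fun x : ℕ => x / 2)^[i + 1] m)) ?_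
      (by fun_prop)
    exact PT.le (PT.const 1) (pt_half.comp (g := fun p : ℕ × ℕ => (p.1, p.2 + 1)) (by fun_prop))
  exact (h.comp hf).of_eq fun a => log_eq _

theorem allL_eq (n : ℕ) : allL n =
    (fun L : List (List Bool) => L.flatMap fun l => [false :: l, true :: l])^[n] [[]] := by
  induction n with
  | zero => rfl
  | succ n ih => rw [Function.iterate_succ_apply', ← ih, allL]

theorem pt_allL {n : α → ℕ} (hn : PT n) (hB : PB fun a => 2 ^ n a) : PT fun a => allL (n a) := by
  have h : PT fun a => (fun L : List (List Bool) =>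
      L.flatMap fun l => [false :: l, true :: l])^[n a] [[]] := by
    refine PT.iterate (step := fun (_ : α) (L : List (List Bool)) =>
      L.flatMap fun l => [false :: l, true :: l]) ?_ hn (PT.const _)
      (B := fun a => 2 ^ n a * (2 * (3 * n a) + 1))
      (hB.mul (((PB.const 2).mul ((PB.const 3).mul hn.nat_pb)).add (PB.const 1))) fun a i hi => ?_
    · exact PT.flatMap (f := fun (_ : α × List (List Bool)) (l : List Bool) =>
        [false :: l, true :: l]) (by fun_prop) (by fun_prop)
    · rw [← allL_eq]
      refine (sz_le_of_forall (B := 3 * n a) fun l hl => ?_).trans ?_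
      · rw [sz_bits, mem_allL.mp hl]; omega
      · rw [length_allL]
        exact Nat.mul_le_mul_right _ (Nat.pow_le_pow_right (by norm_num) hi)
  exact h.of_eq fun a => (allL_eq _).symm

theorem two_pow_log_le (m : ℕ) : 2 ^ Nat.log 2 m ≤ m + 1 := by
  rcases Nat.eq_zero_or_pos m with rfl | hm
  · simp
  · exact (Nat.pow_log_le_self 2 (by omega)).trans (by omega)

theorem pt_allL_log {f : α → ℕ} (hf : PT f) : PT fun a => allL (Nat.log 2 (f a)) :=
  pt_allL (by fun_prop) ((hf.nat_pb.add (PB.const 1)).mono fun a => two_pow_log_le _)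

theorem pt_step {f g : α → List Bool} (hf : PT f) (hg : PT g) : PT fun a => step (f a) (g a) := by
  unfold step
  exact PT.zipWith (f := fun a (u v : Bool) => xor u (v && (g a).getLast?.getD false))
    (by fun_prop) (by fun_prop) hf

theorem pt_pw {f : α → List Bool} {e : α → ℕ} (hf : PT f) (he : PT e) :
    PT fun a => pw (f a) (e a) := by
  unfold pw
  refine PT.iterate (step := fun a => step (f a)) ?_ he (by fun_prop)
    (B := fun a => 3 * (sz (f a) + 1)) ((PB.const 3).mul (hf.pb.add (PB.const 1))) fun a i _ => ?_
  · exact pt_step (hf.comp (g := fun p : α × List Bool => p.1) (by fun_prop)) (by fun_prop)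
  · rw [sz_bits]
    have h1 := length_le_sz (f a)
    have h2 : ((step (f a))^[i] (true :: List.replicate ((f a).length - 1) false)).length ≤
        (f a).length + 1 := by
      cases i with
      | zero => simp
      | succ i =>
        rw [Function.iterate_succ_apply']
        simp [step]
    omega

theorem pt_combo {k : α → ℕ} {L : α → List (List Bool)} (hk : PT k) (hL : PT L) :
    PT fun a => combo (k a) (L a) := by
  unfold combo
  refine PT.foldl (f := fun (_ : α) (s l : List Bool) => List.zipWith xor s l) ?_ hL (by fun_prop)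
    (B := fun a => 3 * k a) ((PB.const 3).mul hk.nat_pb) fun a i => ?_
  · exact PT.zipWith (f := fun (_ : α × List Bool × List Bool) (u v : Bool) => xor u v)
      (by fun_prop) (by fun_prop) (by fun_prop)
  · rw [sz_bits]
    have : ∀ (L : List (List Bool)) (s : List Bool), s.length ≤ k a →
        (L.foldl (fun s l => List.zipWith xor s l) s).length ≤ k a := by
      intro L
      induction L with
      | nil => intro s hs; exact hs
      | cons l L ih =>
        intro s hs
        rw [List.foldl_cons]
        refine ih _ ?_
        simp only [List.length_zipWith]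
        omega
    have := this ((L a).take i) (List.replicate (k a) false) (by simp)
    omega

theorem pt_sumPw {f : α → List Bool} {T : α → List ℕ} (hf : PT f) (hT : PT T) :
    PT fun a => sumPw (f a) (T a) := by
  unfold sumPw
  refine pt_combo (by fun_prop) ?_
  exact PT.map (f := fun a e => pw (f a) e)
    (pt_pw (hf.comp (g := fun p : α × ℕ => p.1) (by fun_prop)) (by fun_prop)) hT

theorem pt_exps {f : α → List Bool} (hf : PT f) : PT fun a => exps (f a) := by
  unfold exps
  refine PT.filter (f := fun a i => (f a ++ [true]).getD i false) ?_ (by fun_prop)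
  have h : PT fun p : α × ℕ => f p.1 := hf.comp (g := fun p : α × ℕ => p.1) (by fun_prop)
  fun_prop

theorem pt_irr {f : α → ℕ} {c : α → List Bool} (hf : PT f) (hc : PT c) :
    PT fun a => irr (Nat.log 2 (f a)) (c a) := by
  unfold irr
  refine PT.all (f := fun a k => decide (k = 0) ||
    (allL (min k (Nat.log 2 (f a)))).all fun g => (sumPw g (exps (c a))).any id) ?_ (by fun_prop)
  have hf' : PT fun p : α × ℕ => f p.1 := hf.comp (g := fun p : α × ℕ => p.1) (by fun_prop)
  have hc' : PT fun p : (α × ℕ) × List Bool => c p.1.1 :=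
    hc.comp (g := fun p : (α × ℕ) × List Bool => p.1.1) (by fun_prop)
  refine PT.or (by fun_prop) ?_
  refine PT.all (f := fun (p : α × ℕ) g => (sumPw g (exps (c p.1))).any id) ?_ ?_
  · exact PT.any (f := fun (_ : (α × ℕ) × List Bool) (b : Bool) => id b) (by unfold id; fun_prop)
      (pt_sumPw (by fun_prop) (pt_exps hc'))
  · refine pt_allL (by fun_prop) ((hf'.nat_pb.add (PB.const 1)).mono fun p => ?_)
    exact (Nat.pow_le_pow_right (by norm_num) (min_le_right _ _)).trans (two_pow_log_le _)

theorem pt_fam {f : α → ℕ} (hf : PT f) : PT fun a => fam (Nat.log 2 (f a)) := by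
  unfold fam
  exact PT.filter (f := fun a c => irr (Nat.log 2 (f a)) c)
    (pt_irr (hf.comp (g := fun p : α × List Bool => p.1) (by fun_prop)) (by fun_prop))
    (pt_allL_log hf)

theorem pt_ip {f g : α → List Bool} (hf : PT f) (hg : PT g) : PT fun a => ip (f a) (g a) := by
  have h : PT fun a => decide ((List.zipWith (fun u v => u && v) (f a) (g a)).count true % 2 = 1) := by
    refine PT.eq ?_ (PT.const 1)
    refine PT.mod (PT.count (PT.const true) ?_) (PT.const 2)
    exact PT.zipWith (f := fun (_ : α) (u v : Bool) => u && v) (by fun_prop) hf hg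
  exact h.of_eq fun a => (ip_eq_count _ _).symm

theorem pt_good {f : α → ℕ} {c : α → List Bool} (hf : PT f) (hc : PT c) :
    PT fun a => good (Nat.log 2 (f a)) (c a) := by
  unfold good
  have hf' : PT fun p : α × List Bool => f p.1 :=
    hf.comp (g := fun p : α × List Bool => p.1) (by fun_prop)
  have hc' : PT fun p : (α × List Bool) × ℕ => c p.1.1 :=
    hc.comp (g := fun p : (α × List Bool) × ℕ => p.1.1) (by fun_prop)
  refine PT.all (f := fun a y => !(y.any id) ||
    decide (25 * Nat.log 2 (f a) ≤ ones (word (60 * Nat.log 2 (f a)) (c a) y))) ?_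
    (pt_allL_log hf)
  refine PT.or ?_ (PT.le (by fun_prop) ?_)
  · refine PT.not ?_
    exact PT.any (f := fun (_ : α × List Bool) (b : Bool) => id b) (by unfold id; fun_prop)
      (by fun_prop)
  · unfold ones word
    refine PT.count (PT.const true) ?_
    exact PT.map (f := fun (p : α × List Bool) l => ip ((c p.1).drop l) p.2)
      (pt_ip (by fun_prop) (by fun_prop)) (by fun_prop)

theorem pt_inner {f : α → ℕ} (hf : PT f) : PT fun a => inner (Nat.log 2 (f a)) := by
  unfold inner
  refine PT.getD_opt ?_ (PT.const [])
  refine PT.find? (f := fun a c => good (Nat.log 2 (f a)) c) ?_ ?_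
  · exact pt_good (hf.comp (g := fun p : α × List Bool => p.1) (by fun_prop)) (by fun_prop)
  · refine pt_allL (by fun_prop) ?_
    refine (PB.eval (Polynomial.X ^ 61) (hf.nat_pb.add (PB.const 1))).mono fun a => ?_
    rw [Polynomial.eval_pow, Polynomial.eval_X, mul_comm, pow_mul]
    exact Nat.pow_le_pow_left (two_pow_log_le _) 61

theorem pt_bit {f k i : α → ℕ} (hf : PT f) (hk : PT k) (hi : PT i) :
    PT fun a => bit (Nat.log 2 (f a)) (k a) (i a) := by
  unfold bit
  refine pt_ip (PT.drop (by fun_prop) (pt_inner hf)) ?_
  exact pt_pw (PT.getD (pt_fam hf) (by fun_prop) (PT.const [])) hk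

/-- The generator. The output is the seed followed by `m / 3000` parities of bits of the seed. -/
def gen (m : ℕ) (s : List Bool) : List Bool :=
  s ++ (List.range (m / 3000)).map fun k =>
    par ((List.range s.length).countP fun i => s.getD i false && bit (Nat.log 2 m) k i)

theorem pt_gen : PT fun p : ℕ × List Bool => gen p.1 p.2 := by
  unfold gen
  refine PT.append (by fun_prop) ?_
  refine PT.map (f := fun (p : ℕ × List Bool) k => par ((List.range p.2.length).countP fun i =>
    p.2.getD i false && bit (Nat.log 2 p.1) k i)) ?_ (by fun_prop)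
  unfold par
  refine PT.eq (PT.mod ?_ (PT.const 2)) (PT.const 1)
  refine PT.countP (f := fun (p : (ℕ × List Bool) × ℕ) i =>
    p.1.2.getD i false && bit (Nat.log 2 p.1.1) p.2 i) ?_ (by fun_prop)
  exact PT.and (by fun_prop) (pt_bit (by fun_prop) (by fun_prop) (by fun_prop))

/-- **The generator is computable in polynomial time.** -/
theorem polyTime_gen : ∃ f : List Bool → List Bool, PolyTime f ∧
    ∀ (m : ℕ) (s : List Bool), f (pair (List.replicate m true) s) = gen m s := by
  have h : PT fun x : Bits => Bits.mk (gen (sz x.fst) x.snd.val) :=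
    PT.bmk (pt_gen.comp (g := fun x : Bits => (sz x.fst, x.snd.val))
      (PT.mk (PT.sz PT.bfst) (PT.bval PT.bsnd)))
  refine ⟨_, PT.polyTime h, fun m s => ?_⟩
  simp [Bits.fst, Bits.snd, sz]

theorem polyTime_seed : ∃ f : List Bool → List Bool, PolyTime f ∧
    ∀ m : ℕ, f (List.replicate m true) = List.replicate (m - m / 3000) true := by
  have h : PT fun x : Bits => raw (sz x - sz x / 3000) := by fun_prop
  refine ⟨_, PT.polyTime h, fun m => ?_⟩
  simp [raw, sz]

end Pool.Agent.W2helper86.LG
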