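import Pool.Agent.W2helper86.LG.Elim

/-!
# Correlation of small circuits with parities

`corr_bound`: a function computed by a straight-line program of cost `n` over the variables `X` has
correlation at most `A ^ n * D ^ (|X| - 2)` with the parity of `X`, where `1 ≤ A`, `A ^ 2 ≤ 1 + A`
and `D = (1 + A) / (2 A ^ 3)`.
-/

set_option autoImplicit false

namespace Pool.Agent.W2helper86.LG

open Finset

/-- the sign of a bit -/
def sg (b : Bool) : ℝ := if b then -1 else 1

theorem sg_xor (a b : Bool) : sg (xor a b) = sg a * sg b := by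
  cases a <;> cases b <;> simp [sg]

theorem sg_sq (a : Bool) : sg a * sg a = 1 := by
  cases a <;> simp [sg]

theorem abs_sg (a : Bool) : |sg a| = 1 := by
  cases a <;> simp [sg]

variable {V : Type} [DecidableEq V] [Fintype V]

/-- the (unnormalised) correlation of `f` with the parity of `X` -/
noncomputable def cr (X : Finset V) (f : Fn V) : ℝ :=
  ∑ x : V → Bool, sg (f x) * ∏ v ∈ X, sg (x v)

/-- `f` does not depend on the variable `v` -/
def Ind (v : V) (f : Fn V) : Prop := ∀ x c, f (Function.update x v c) = f x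

theorem sum_upd (v : V) (h : (V → Bool) → ℝ) :
    2 * ∑ x, h x = ∑ x, (h (Function.update x v false) + h (Function.update x v true)) := by
  have hinv : Function.Involutive (fun x : V → Bool => Function.update x v (!x v)) := by
    intro x
    simp
  have h1 : ∑ x, h (Function.update x v (!x v)) = ∑ x, h x :=
    Equiv.sum_comp (Function.Involutive.toPerm _ hinv) h
  have h2 : 2 * ∑ x, h x = ∑ x, (h x + h (Function.update x v (!x v))) := by
    rw [sum_add_distrib, h1]; ring
  rw [h2]
  refine sum_congr rfl fun x _ => ?_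
  have h3 : Function.update x v (x v) = x := Function.update_eq_self v x
  cases hx : x v
  · rw [hx] at h3
    rw [h3]; simp
  · rw [hx] at h3
    rw [h3]; simp [add_comm]

theorem prod_upd {X : Finset V} {v : V} (hv : v ∈ X) (x : V → Bool) (c : Bool) :
    ∏ u ∈ X, sg (Function.update x v c u) = sg c * ∏ u ∈ X.erase v, sg (x u) := by
  rw [← mul_prod_erase X _ hv, Function.update_self]
  congr 1
  refine prod_congr rfl fun u hu => ?_
  rw [Function.update_of_ne (ne_of_mem_erase hu)]

theorem cr_split {X : Finset V} {v : V} (hv : v ∈ X) (f : Fn V) :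
    2 * cr X f = cr (X.erase v) (rest v false f) - cr (X.erase v) (rest v true f) := by
  unfold cr
  rw [sum_upd v, ← sum_sub_distrib]
  refine sum_congr rfl fun x _ => ?_
  rw [prod_upd hv, prod_upd hv]
  simp only [rest, sg]
  simp
  ring

theorem cr_split' {X : Finset V} {v : V} (hv : v ∉ X) (f : Fn V) :
    2 * cr X f = cr X (rest v false f) + cr X (rest v true f) := by
  unfold cr
  rw [sum_upd v, ← sum_add_distrib]
  refine sum_congr rfl fun x _ => ?_
  have h : ∀ c, ∏ u ∈ X, sg (Function.update x v c u) = ∏ u ∈ X, sg (x u) := by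
    intro c
    refine prod_congr rfl fun u hu => ?_
    rw [Function.update_of_ne (fun h => hv (by rw [← h]; exact hu))]
  rw [h, h]
  rfl

theorem cr_ind {X : Finset V} {v : V} (hv : v ∈ X) {f : Fn V} (hf : Ind v f) : cr X f = 0 := by
  have h := cr_split hv f
  have h1 : rest v false f = rest v true f := by
    funext x
    show f _ = f _
    rw [hf, hf]
  rw [h1, sub_self] at h
  linarith

theorem cr_le (X : Finset V) (f : Fn V) : |cr X f| ≤ 2 ^ Fintype.card V := by
  unfold cr
  refine (abs_sum_le_sum_abs _ _).trans ?_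
  have : ∀ x ∈ (univ : Finset (V → Bool)), |sg (f x) * ∏ v ∈ X, sg (x v)| = 1 := by
    intro x _
    rw [abs_mul, abs_sg, one_mul, Finset.abs_prod]
    exact prod_eq_one fun v _ => abs_sg _
  rw [sum_congr rfl this]
  simp

theorem cr_opp {X : Finset V} {f g : Fn V} (h : Opp f g) : |cr X f| = |cr X g| := by
  obtain ⟨b, hb⟩ := h
  have : cr X f = sg b * cr X g := by
    unfold cr
    rw [mul_sum]
    refine sum_congr rfl fun x _ => ?_
    rw [hb x, sg_xor]; ring
  rw [this, abs_mul, abs_sg, one_mul]

omit [DecidableEq V] [Fintype V] in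
theorem Ind.opp [DecidableEq V] {v : V} {f g : Fn V} (h : Opp f g) (hg : Ind v g) : Ind v f := by
  obtain ⟨b, hb⟩ := h
  intro x c
  rw [hb, hb, hg]

omit [Fintype V] in
theorem Cst.ind {f : Fn V} (h : Cst f) (v : V) : Ind v f := by
  obtain ⟨b, hb⟩ := h
  intro x c
  rw [hb, hb]

omit [Fintype V] in
theorem lit_ind {u v : V} (h : u ≠ v) : Ind v (lit u) := by
  intro x c
  simp [lit, Function.update_of_ne h]

theorem cr_triv {X : Finset V} (hX : 2 ≤ X.card) {f : Fn V} (h : Triv X f) : cr X f = 0 := by
  rcases h with h | ⟨u, hu, h⟩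
  · obtain ⟨v, hv⟩ := card_pos.mp (show 0 < X.card by omega)
    exact cr_ind hv (h.ind v)
  · have : 0 < (X.erase u).card := by
      rw [card_erase_of_mem hu]; omega
    obtain ⟨v, hv⟩ := card_pos.mp this
    exact cr_ind (mem_of_mem_erase hv) ((lit_ind (ne_of_mem_erase hv).symm).opp h)

theorem cr_half {X : Finset V} {v : V} (hv : v ∈ X) (f : Fn V) (a : Bool) :
    |cr X f| ≤ (|cr (X.erase v) (rest v a f)| + |cr (X.erase v) (rest v (!a) f)|) / 2 := by
  have h := cr_split hv f
  have h1 : |cr X f| = |cr (X.erase v) (rest v false f) - cr (X.erase v) (rest v true f)| / 2 := by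
    rw [← h, abs_mul]
    norm_num
  rw [h1]
  have h2 := abs_sub (cr (X.erase v) (rest v false f)) (cr (X.erase v) (rest v true f))
  cases a
  · simp only [Bool.not_false]; linarith
  · simp only [Bool.not_true]; linarith

/-- If only gate `g` uses the variable `i`, and gate `g` is killed by `x j = c`, then
the restricted functions do not depend on the variable `i`. -/
theorem ind_claim {X : Finset V} (C : SL X) {g : ℕ} {i j : V} {c : Bool} (hij : i ≠ j)
    (hc : Cst (rest j c (C.F g)))
    (hno : ∀ k ∈ ess C, k ≠ g → ¬ Uses C k (lit i)) :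
    ∀ k < C.s, Ind i (rest j c (C.F k)) ∨ Opp (C.F k) (lit i) := by
  intro k
  induction k using Nat.strong_induction_on with
  | _ k ih =>
    intro hk
    by_cases hT : Triv X (C.F k)
    · rcases hT with h | ⟨u, hu, h⟩
      · exact Or.inl ((h.rest j c).ind i)
      · by_cases hui : u = i
        · subst hui; exact Or.inr h
        · left
          by_cases huj : u = j
          · subst huj
            exact ((rest_lit_self u c).opp (h.rest u c)).ind i
          · exact (lit_ind hui).opp ((h.rest j c).trans (rest_lit_ne c huj))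
    by_cases hE : Ess C k
    · by_cases hkg : k = g
      · subst hkg
        exact Or.inl (hc.ind i)
      · have hu := hno k (mem_ess.mpr ⟨hk, hE⟩) hkg
        have hin : ∀ P : Fn V, (Triv X P ∨ ∃ l < k, Opp P (C.F l)) → ¬ Opp P (lit i) →
            Ind i (rest j c P) := by
          intro P hP hPi
          rcases hP with (h | ⟨u, _, h⟩) | ⟨l, hl, h⟩
          · exact (h.rest j c).ind i
          · have hui : u ≠ i := fun he => hPi (he ▸ h)
            by_cases huj : u = j
            · subst huj
              exact ((rest_lit_self u c).opp (h.rest u c)).ind i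
            · exact (lit_ind hui).opp ((h.rest j c).trans (rest_lit_ne c huj))
          · rcases ih l hl (hl.trans hk) with h1 | h1
            · exact h1.opp (h.rest j c)
            · exact absurd (h.trans h1) hPi
        have h1 := hin (C.A k) (C.hA k hk) (fun h => hu (Or.inl h))
        have h2 := hin (C.B k) (C.hB k hk) (fun h => hu (Or.inr h))
        left
        intro x d
        show C.F k _ = C.F k _
        rw [C.hF k hk, C.hF k hk]
        have e1 := h1 x d
        have e2 := h2 x d
        simp only [rest] at e1 e2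
        rw [e1, e2]
    · have : ∃ l < k, Opp (C.F k) (C.F l) := by
        by_contra hcon
        push Not at hcon
        exact hE ⟨hT, hcon⟩
      obtain ⟨l, hl, h⟩ := this
      rcases ih l hl (hl.trans hk) with h1 | h1
      · exact Or.inl (h1.opp (h.rest j c))
      · exact Or.inr (h.trans h1)

/-- The first case: a gate fed by two literals one of which is used nowhere else. -/
theorem caseA {X : Finset V} (C : SL X) {g o : ℕ} {i j : V} {c : Bool} (hi : i ∈ X) (hj : j ∈ X)
    (hij : i ≠ j) (hg : g ∈ ess C) (hc : Cst (rest j c (C.F g))) (hu : Uses C g (lit j))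
    (hno : ∀ k ∈ ess C, k ≠ g → ¬ Uses C k (lit i)) (ho : o < C.s) (hT : ¬ Triv X (C.F o)) :
    |cr X (C.F o)| ≤ |cr (X.erase j) ((C.rest j (!c)).F o)| / 2 ∧
      cost (C.rest j (!c)) + 1 ≤ cost C := by
  constructor
  · have h1 := cr_half hj (C.F o) c
    have h2 : cr (X.erase j) (rest j c (C.F o)) = 0 := by
      rcases ind_claim C hij hc hno o ho with h | h
      · exact cr_ind (mem_erase.mpr ⟨hij, hi⟩) h
      · exact absurd (Or.inr ⟨i, hi, h⟩) hT
    rw [h2, abs_zero, zero_add] at h1
    exact h1
  · have h := cost_rest C j (!c) {g} (by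
      intro k hk
      rw [mem_singleton] at hk
      subst hk
      exact ⟨hg, not_ess_rest (mem_ess.mp hg).1 hu (rest_lit_self j _)⟩)
    rwa [card_singleton] at h

/-- The correlation with a parity of at least three variables of a function of two variables. -/
theorem cr_two {X : Finset V} (hX : 3 ≤ X.card) {f : Fn V} {i j : V}
    (h : ∀ v, v ≠ i → v ≠ j → Ind v f) : cr X f = 0 := by
  have : 0 < ((X.erase i).erase j).card := by
    have h1 := pred_card_le_card_erase (s := X) (a := i)
    have h2 := pred_card_le_card_erase (s := X.erase i) (a := j)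
    omega
  obtain ⟨v, hv⟩ := card_pos.mp this
  have hv1 := mem_erase.mp hv
  have hv2 := mem_erase.mp hv1.2
  exact cr_ind hv2.2 (h v hv2.1 hv1.1)

theorem num {A : ℝ} (h1 : 1 ≤ A) (h2 : A ^ 2 ≤ 1 + A) :
    0 < (1 + A) / (2 * A ^ 3) ∧ (1 + A) / (2 * A ^ 3) ≤ 1 ∧
      1 / 2 ≤ A * ((1 + A) / (2 * A ^ 3)) := by
  have hA : 0 < A := by linarith
  refine ⟨by positivity, ?_, ?_⟩
  · rw [div_le_one (by positivity)]
    nlinarith [mul_pos hA hA, mul_nonneg hA.le (sub_nonneg.mpr h1),
      mul_nonneg (mul_nonneg hA.le hA.le) (sub_nonneg.mpr h1)]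
  · have : A * ((1 + A) / (2 * A ^ 3)) = (1 + A) / (2 * A ^ 2) := by
      field_simp
    rw [this, div_le_div_iff₀ (by norm_num) (by positivity)]
    nlinarith

theorem corr_bound {A : ℝ} (h1 : 1 ≤ A) (h2 : A ^ 2 ≤ 1 + A) :
    ∀ (w : ℕ) (X : Finset V), X.card = w → ∀ (n : ℕ) (C : SL X), cost C = n → ∀ o < C.s,
      |cr X (C.F o)| ≤ 2 ^ Fintype.card V * (A ^ n * ((1 + A) / (2 * A ^ 3)) ^ (w - 2)) := by
  obtain ⟨hD0, hD1, hAD⟩ := num h1 h2
  set D := (1 + A) / (2 * A ^ 3) with hD
  have hA0 : 0 < A := by linarith
  intro w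
  induction w with
  | zero =>
    intro X _ n C _ o _
    refine (cr_le X _).trans ?_
    rw [Nat.zero_sub, pow_zero, mul_one]
    exact le_mul_of_one_le_right (by positivity) (one_le_pow₀ h1)
  | succ w IHw =>
    by_cases hw : w ≤ 1
    · intro X _ n C _ o _
      refine (cr_le X _).trans ?_
      have : w + 1 - 2 = 0 := by omega
      rw [this, pow_zero, mul_one]
      exact le_mul_of_one_le_right (by positivity) (one_le_pow₀ h1)
    intro X hX n
    have hexp : w + 1 - 2 = (w - 2) + 1 := by omega
    induction n using Nat.strong_induction_on with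
    | _ n IHn =>
      intro C hC o ho
      have hX3 : 3 ≤ X.card := by omega
      by_cases hT : Triv X (C.F o)
      · rw [cr_triv (by omega) hT, abs_zero]; positivity
      have hVpos : (0 : ℝ) < 2 ^ Fintype.card V := by positivity
      have hXe : ∀ v ∈ X, (X.erase v).card = w := by
        intro v hv
        rw [card_erase_of_mem hv]; omega
      -- bound of a restricted program
      have hb : ∀ (v : V) (hv : v ∈ X) (c : Bool) (t : ℕ), cost (C.rest v c) + t ≤ n →
          |cr (X.erase v) (rest v c (C.F o))| ≤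
            2 ^ Fintype.card V * (A ^ n / A ^ t * D ^ (w - 2)) := by
        intro v hv c t ht
        have h := IHw (X.erase v) (hXe v hv) (cost (C.rest v c)) (C.rest v c) rfl o ho
        refine h.trans ?_
        apply mul_le_mul_of_nonneg_left _ hVpos.le
        apply mul_le_mul_of_nonneg_right _ (by positivity)
        rw [le_div_iff₀ (by positivity), ← pow_add]
        exact pow_le_pow_right₀ h1 ht
      -- removal of a gate
      have hrem : ∀ k ∈ ess C, (∀ k' ∈ ess C, k' ≠ k → ¬ Uses C k' (C.F k)) →
          ¬ Opp (C.F o) (C.F k) → |cr X (C.F o)| ≤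
            2 ^ Fintype.card V * (A ^ n * D ^ (w + 1 - 2)) := by
        intro k hk hun hok
        obtain ⟨C', hs', hF', hc'⟩ := remove C k hk hun
        have hlt : cost C' < n := by omega
        have h := IHn (cost C') hlt C' rfl o (by rw [hs']; exact ho)
        rw [hF' o hok] at h
        refine h.trans ?_
        apply mul_le_mul_of_nonneg_left _ hVpos.le
        apply mul_le_mul_of_nonneg_right _ (by positivity)
        exact pow_le_pow_right₀ h1 hlt.le
      have hne : (ess C).Nonempty := by
        classical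
        have hex : ∃ j, j ≤ o ∧ Opp (C.F o) (C.F j) := ⟨o, le_rfl, Opp.refl _⟩
        obtain ⟨hj1, hj2⟩ := Nat.find_spec hex
        refine ⟨Nat.find hex, mem_ess.mpr ⟨by omega, fun ht => hT (ht.opp hj2), ?_⟩⟩
        intro l hl hol
        exact Nat.find_min hex hl ⟨by omega, hj2.trans hol⟩
      obtain ⟨g, hg, i, hi, j, hj, hij, hAg, hBg, a, b, e, hFg⟩ := first C hne
      have hgs := (mem_ess.mp hg).1
      have hge := (mem_ess.mp hg).2
      have hci : Cst (rest i a (C.F g)) := ⟨e, fun x => by simp [rest, hFg]⟩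
      have hcj : Cst (rest j b (C.F g)) := ⟨e, fun x => by simp [rest, hFg]⟩
      -- the arithmetic of the first case
      have arithA : ∀ z : ℝ, z ≤ 2 ^ Fintype.card V * (A ^ n / A ^ 1 * D ^ (w - 2)) →
          z / 2 ≤ 2 ^ Fintype.card V * (A ^ n * D ^ (w + 1 - 2)) := by
        intro z hz
        have h3 : 2 ^ Fintype.card V * (A ^ n / A ^ 1 * D ^ (w - 2)) / 2 ≤
            2 ^ Fintype.card V * (A ^ n * D ^ (w + 1 - 2)) := by
          rw [hexp, pow_succ D, pow_one]
          have h4 : (0 : ℝ) ≤ 2 ^ Fintype.card V * (A ^ n / A) * D ^ (w - 2) := by positivity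
          have h5 : 2 ^ Fintype.card V * (A ^ n / A * D ^ (w - 2)) / 2 =
              2 ^ Fintype.card V * (A ^ n / A) * D ^ (w - 2) * (1 / 2) := by ring
          have h6 : 2 ^ Fintype.card V * (A ^ n * (D ^ (w - 2) * D)) =
              2 ^ Fintype.card V * (A ^ n / A) * D ^ (w - 2) * (A * D) := by
            field_simp
          rw [h5, h6]
          exact mul_le_mul_of_nonneg_left hAD h4
        linarith
      by_cases hAi : ∀ k ∈ ess C, k ≠ g → ¬ Uses C k (lit i)
      · obtain ⟨h3, h4⟩ := caseA C hi hj hij hg hcj (Or.inr hBg) hAi ho hT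
        exact h3.trans (arithA _ (hb j hj (!b) 1 (by omega)))
      by_cases hAj : ∀ k ∈ ess C, k ≠ g → ¬ Uses C k (lit j)
      · obtain ⟨h3, h4⟩ := caseA C hj hi hij.symm hg hci (Or.inl hAg) hAj ho hT
        exact h3.trans (arithA _ (hb i hi (!a) 1 (by omega)))
      push Not at hAi
      obtain ⟨k1, hk1, hk1g, hk1u⟩ := hAi
      have hk1s := (mem_ess.mp hk1).1
      have hk1e := (mem_ess.mp hk1).2
      have hcost2 : cost (C.rest i (!a)) + 2 ≤ n := by
        have h := cost_rest C i (!a) {g, k1} (by
          intro k hk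
          rw [mem_insert, mem_singleton] at hk
          rcases hk with rfl | rfl
          · exact ⟨hg, not_ess_rest hgs (Or.inl hAg) (rest_lit_self i _)⟩
          · exact ⟨hk1, not_ess_rest hk1s hk1u (rest_lit_self i _)⟩)
        rw [card_pair hk1g.symm, hC] at h
        exact h
      -- the arithmetic of the second case
      have arithB : cost (C.rest i a) + 3 ≤ n → |cr X (C.F o)| ≤
          2 ^ Fintype.card V * (A ^ n * D ^ (w + 1 - 2)) := by
        intro hcost3
        have h3 := hb i hi (!a) 2 hcost2
        have h4 := hb i hi a 3 hcost3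
        have h5 := cr_half hi (C.F o) a
        have h6 : 2 ^ Fintype.card V * (A ^ n * D ^ (w + 1 - 2)) =
            (2 ^ Fintype.card V * (A ^ n / A ^ 3 * D ^ (w - 2)) +
              2 ^ Fintype.card V * (A ^ n / A ^ 2 * D ^ (w - 2))) / 2 := by
          rw [hexp, pow_succ D]
          have h7 : A ^ n * (D ^ (w - 2) * D) = A ^ n * D ^ (w - 2) * D := by ring
          rw [h7, hD]
          field_simp
        rw [h6]
        linarith
      have hE3 : ∀ k2 ∈ ess C, k2 ≠ g → k2 ≠ k1 → ∀ f : Fn V, Uses C k2 f → Cst (rest i a f) →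
          cost (C.rest i a) + 3 ≤ n := by
        intro k2 hk2 hk2g hk21 f hf hcf
        have h := cost_rest C i a {g, k1, k2} (by
          intro k hk
          rw [mem_insert, mem_insert, mem_singleton] at hk
          rcases hk with rfl | rfl | rfl
          · exact ⟨hg, not_ess_rest hgs (Or.inl hAg) (rest_lit_self i _)⟩
          · exact ⟨hk1, not_ess_rest hk1s hk1u (rest_lit_self i _)⟩
          · exact ⟨hk2, not_ess_rest (mem_ess.mp hk2).1 hf hcf⟩)
        rw [card_insert_of_notMem (by
          rw [mem_insert, mem_singleton]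
          push Not
          exact ⟨hk1g.symm, hk2g.symm⟩), card_pair hk21.symm, hC] at h
        exact h
      have hFgind : ∀ v, v ≠ i → v ≠ j → Ind v (C.F g) := by
        intro v hvi hvj x c
        rw [hFg, hFg, Function.update_of_ne hvi.symm, Function.update_of_ne hvj.symm]
      by_cases hu : ∃ k2 ∈ ess C, k2 ≠ g ∧ k2 ≠ k1 ∧ Uses C k2 (C.F g)
      · obtain ⟨k2, hk2, h3, h4, h5⟩ := hu
        exact arithB (hE3 k2 hk2 h3 h4 _ h5 hci)
      push Not at hu
      by_cases hk1F : Uses C k1 (C.F g)
      · -- both inputs of `k1` become constant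
        have hnot : ∀ P : Fn V, Opp P (lit i) → Opp P (C.F g) → False := by
          intro P hP1 hP2
          exact hge.1 (Or.inr ⟨i, hi, hP2.symm.trans hP1⟩)
        have hck1 : Cst (rest i a (C.F k1)) ∧ ∀ v, v ≠ i → v ≠ j → Ind v (C.F k1) := by
          have hboth : (Cst (rest i a (C.A k1)) ∧ Cst (rest i a (C.B k1))) ∧
              ∀ v, v ≠ i → v ≠ j → Ind v (C.A k1) ∧ Ind v (C.B k1) := by
            rcases hk1u with h | h <;> rcases hk1F with h' | h'
            · exact absurd h' (fun h' => hnot _ h h')
            · exact ⟨⟨(rest_lit_self i a).opp (h.rest i a), hci.opp (h'.rest i a)⟩,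
                fun v hvi hvj => ⟨(lit_ind hvi.symm).opp h, (hFgind v hvi hvj).opp h'⟩⟩
            · exact ⟨⟨hci.opp (h'.rest i a), (rest_lit_self i a).opp (h.rest i a)⟩,
                fun v hvi hvj => ⟨(hFgind v hvi hvj).opp h', (lit_ind hvi.symm).opp h⟩⟩
            · exact absurd h' (fun h' => hnot _ h h')
          obtain ⟨⟨⟨d, hd⟩, ⟨d', hd'⟩⟩, hv⟩ := hboth
          constructor
          · refine ⟨xor (C.r k1) (xor (C.p k1) d && xor (C.q k1) d'), fun x => ?_⟩
            show C.F k1 _ = _
            rw [C.hF k1 hk1s]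
            have e1 := hd x
            have e2 := hd' x
            simp only [rest] at e1 e2
            rw [e1, e2]
          · intro v hvi hvj x c
            rw [C.hF k1 hk1s, C.hF k1 hk1s, (hv v hvi hvj).1 x c, (hv v hvi hvj).2 x c]
        by_cases hu2 : ∃ k2 ∈ ess C, k2 ≠ g ∧ k2 ≠ k1 ∧ Uses C k2 (C.F k1)
        · obtain ⟨k2, hk2, h3, h4, h5⟩ := hu2
          exact arithB (hE3 k2 hk2 h3 h4 _ h5 hck1.1)
        push Not at hu2
        by_cases hok : Opp (C.F o) (C.F k1)
        · rw [cr_two hX3 (fun v hvi hvj => (hck1.2 v hvi hvj).opp hok), abs_zero]; positivity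
        refine hrem k1 hk1 ?_ hok
        intro k' hk' hk'1 hus
        by_cases hk'g : k' = g
        · subst hk'g
          rcases hus with h | h
          · exact hk1e.1 (Or.inr ⟨i, hi, h.symm.trans hAg⟩)
          · exact hk1e.1 (Or.inr ⟨j, hj, h.symm.trans hBg⟩)
        · exact hu2 k' hk' hk'g hk'1 hus
      · by_cases hok : Opp (C.F o) (C.F g)
        · rw [cr_two hX3 (fun v hvi hvj => (hFgind v hvi hvj).opp hok), abs_zero]; positivity
        refine hrem g hg ?_ hok
        intro k' hk' hk'g hus
        by_cases hk'1 : k' = k1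
        · subst hk'1; exact hk1F hus
        · exact hu k' hk' hk'g hk'1 hus

end Pool.Agent.W2helper86.LG
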