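import Pool.Agent.W2helper86.LG.Inner

/-!
# The dual distance of the generator
-/

set_option autoImplicit false

namespace Pool.Agent.W2helper86.LG

open Finset

/-- the number of `i < n` with `P i` -/
def cnt (P : ℕ → Bool) (n : ℕ) : ℕ := (List.range n).countP P

theorem cnt_zero (P : ℕ → Bool) : cnt P 0 = 0 := rfl

theorem cnt_succ (P : ℕ → Bool) (n : ℕ) : cnt P (n + 1) = cnt P n + if P n then 1 else 0 := by
  unfold cnt
  rw [List.range_succ, List.countP_append]
  simp [List.countP_cons]

theorem cnt_add (P : ℕ → Bool) (a b : ℕ) :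
    cnt P (a + b) = cnt P a + cnt (fun i => P (a + i)) b := by
  induction b with
  | zero => simp [cnt_zero]
  | succ b ih => rw [← add_assoc, cnt_succ, ih, cnt_succ, add_assoc]

theorem cnt_congr {P Q : ℕ → Bool} {n : ℕ} (h : ∀ i < n, P i = Q i) : cnt P n = cnt Q n := by
  unfold cnt
  exact List.countP_congr fun i hi => by rw [h i (List.mem_range.mp hi)]

theorem cnt_mono (P : ℕ → Bool) {a b : ℕ} (h : a ≤ b) : cnt P a ≤ cnt P b := by
  obtain ⟨c, rfl⟩ := Nat.exists_eq_add_of_le h
  rw [cnt_add]
  exact Nat.le_add_right _ _

theorem cnt_blocks (P : ℕ → Bool) (N M : ℕ) :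
    cnt P (N * M) = ∑ u ∈ range M, cnt (fun l => P (N * u + l)) N := by
  induction M with
  | zero => simp [cnt_zero]
  | succ M ih => rw [Nat.mul_succ, cnt_add, ih, sum_range_succ]

theorem card_fin (P : ℕ → Bool) (m : ℕ) :
    (univ.filter fun v : Fin m => P v.val = true).card = cnt P m := by
  rw [card_filter, Fin.sum_univ_eq_sum_range (fun i => if P i = true then 1 else 0) m]
  induction m with
  | zero => simp [cnt_zero]
  | succ m ih => rw [sum_range_succ, ih, cnt_succ]

theorem countP_toList (T : Finset ℕ) (p : ℕ → Bool) :
    T.toList.countP p = (T.filter fun k => p k = true).card := by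
  rw [List.countP_eq_length_filter]
  have h1 : (T.toList.filter p).Nodup := T.nodup_toList.filter _
  rw [← List.toFinset_card_of_nodup h1]
  congr 1
  ext k
  simp

/-- bit `i` of the parity check number `k` -/
def bit (r k i : ℕ) : Bool :=
  ip ((inner r).drop (i % (60 * r))) (pw ((fam r).getD (i / (60 * r)) []) k)

/-- bit `i` of the sum of the parity checks in `T` -/
def tbit (r : ℕ) (T : Finset ℕ) (i : ℕ) : Bool := par (T.filter fun k => bit r k i = true).card

open Polynomial in
theorem dist_bound {r : ℕ} (hr : 0 < r) {κ M d : ℕ} (hM : M ≤ (fam r).length)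
    (hd : 60 * r * M ≤ d) {T : Finset ℕ} (hT : T ⊆ range κ) (hne : T.Nonempty) :
    25 * r * M ≤ cnt (tbit r T) d + 25 * κ := by
  set c : ℕ → List Bool := fun u => (fam r).getD u [] with hc
  have hmem : ∀ u < M, (c u).length = r ∧ Irreducible (mon (c u)) := by
    intro u hu
    have hul : u < (fam r).length := by omega
    rw [← mem_fam hr, hc]
    simp only
    rw [List.getD_eq_getElem _ _ hul]
    exact List.getElem_mem hul
  have hcne : ∀ u < M, c u ≠ [] := by
    intro u hu h
    have := (hmem u hu).1
    rw [h] at this
    simp at this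
    omega
  set Y : ℕ → List Bool := fun u => sumPw (c u) T.toList with hY
  have hYl : ∀ u < M, (Y u).length = r := fun u hu => by
    rw [hY]
    simp only
    rw [length_sumPw (hcne u hu), (hmem u hu).1]
  -- the bits in one block
  have hbit : ∀ u < M, ∀ l < 60 * r, tbit r T (60 * r * u + l) = ip ((inner r).drop l) (Y u) := by
    intro u hu l hl
    have h1 : (60 * r * u + l) % (60 * r) = l := by
      rw [Nat.mul_add_mod, Nat.mod_eq_of_lt hl]
    have h2 : (60 * r * u + l) / (60 * r) = u := by
      rw [Nat.mul_add_div (by omega), Nat.div_eq_of_lt hl, add_zero]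
    rw [hY]
    simp only [sumPw]
    rw [ip_combo _ _ _ (fun y hy => by
      obtain ⟨e, _, rfl⟩ := List.mem_map.mp hy
      exact length_pw (hcne u hu) e), List.countP_map, countP_toList]
    unfold tbit bit
    rw [h1, h2]
    rfl
  have hblock : ∀ u < M, (Y u).any id = true →
      25 * r ≤ cnt (fun l => tbit r T (60 * r * u + l)) (60 * r) := by
    intro u hu h
    rw [cnt_congr (hbit u hu)]
    exact inner_dist (hYl u hu) h
  -- the polynomial
  set P : (ZMod 2)[X] := ∑ e ∈ T, X ^ e with hP
  have hPl : (T.toList.map (fun e => (X : (ZMod 2)[X]) ^ e)).sum = P := by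
    rw [hP]
    exact Finset.sum_map_toList T _
  have hP0 : P ≠ 0 := by
    obtain ⟨j, hj⟩ := hne
    intro h
    have h1 := congrArg (fun p => p.coeff j) h
    simp only [hP, finsetSum_coeff, coeff_X_pow, coeff_zero] at h1
    rw [sum_eq_single j (fun i _ hij => if_neg (Ne.symm hij)) (fun h => absurd hj h)] at h1
    simp at h1
  have hPd : P.natDegree ≤ κ := by
    rw [hP]
    refine natDegree_sum_le_of_forall_le _ _ fun e he => ?_
    rw [natDegree_X_pow]
    exact (mem_range.mp (hT he)).le
  -- the zero blocks
  classical
  set Z := (range M).filter fun u => (Y u).any id = false with hZ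
  have hZc : Z.card * r ≤ κ := by
    have h1 : Set.InjOn c Z := by
      intro u hu v hv huv
      rw [mem_coe, hZ, mem_filter, mem_range] at hu hv
      have hu' : u < (fam r).length := by omega
      have hv' : v < (fam r).length := by omega
      rw [hc] at huv
      simp only at huv
      rw [List.getD_eq_getElem _ _ hu', List.getD_eq_getElem _ _ hv'] at huv
      exact (nodup_fam r).getElem_inj_iff.mp huv
    have h2 := few_zeros (r := r) (Z.image c) (by
      intro y hy
      obtain ⟨u, hu, rfl⟩ := mem_image.mp hy
      rw [hZ, mem_filter, mem_range] at hu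
      exact hmem u hu.1) hP0 (by
      intro y hy
      obtain ⟨u, hu, rfl⟩ := mem_image.mp hy
      rw [hZ, mem_filter, mem_range] at hu
      have := (sumPw_zero (hcne u hu.1) T.toList).mp hu.2
      rwa [hPl] at this)
    rw [card_image_of_injOn h1] at h2
    exact h2.trans hPd
  have hsum : 25 * r * (M - Z.card) ≤ cnt (tbit r T) (60 * r * M) := by
    rw [cnt_blocks]
    have h1 : (range M).filter (fun u => ¬ (Y u).any id = false) ⊆ range M := filter_subset _ _
    have h2 : ((range M).filter (fun u => ¬ (Y u).any id = false)).card = M - Z.card := by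
      have h := card_filter_add_card_filter_not (s := range M) (fun u => (Y u).any id = false)
      rw [card_range] at h
      have h' : Z.card + ((range M).filter (fun u => ¬ (Y u).any id = false)).card = M := by
        rw [hZ]
        convert h
      omega
    calc 25 * r * (M - Z.card)
        = ∑ _u ∈ (range M).filter (fun u => ¬ (Y u).any id = false), 25 * r := by
          rw [sum_const, h2, smul_eq_mul, mul_comm]
      _ ≤ ∑ u ∈ (range M).filter (fun u => ¬ (Y u).any id = false),
            cnt (fun l => tbit r T (60 * r * u + l)) (60 * r) := by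
          refine sum_le_sum fun u hu => ?_
          rw [mem_filter, mem_range, Bool.not_eq_false] at hu
          exact hblock u hu.1 hu.2
      _ ≤ _ := sum_le_sum_of_subset h1
  have h3 := cnt_mono (tbit r T) hd
  have h4 : 25 * r * M ≤ 25 * r * (M - Z.card) + 25 * (Z.card * r) := by
    have h5 : M ≤ (M - Z.card) + Z.card := by omega
    calc 25 * r * M ≤ 25 * r * ((M - Z.card) + Z.card) := Nat.mul_le_mul_left _ h5
      _ = _ := by ring
  omega

end Pool.Agent.W2helper86.LG
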