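import Mathlib

/-!
# Gate elimination: straight-line programs and their essential gates

Boolean functions are considered up to negation. A straight-line program over a set `X` of
variables is a list of functions, each of which is the conjunction (up to negations) of two
functions which are trivial (constants and literals of `X`) or occur earlier. Its cost is the number
of the functions which are neither trivial nor equal, up to negation, to an earlier one.
-/

set_option autoImplicit false

namespace Pool.Agent.W2helper86.LG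

open Finset

variable {V : Type} [DecidableEq V]

/-- Boolean functions of the variables `V` -/
abbrev Fn (V : Type) : Type := (V → Bool) → Bool

/-- `f` is `g` or the negation of `g` -/
def Opp (f g : Fn V) : Prop := ∃ b : Bool, ∀ x, f x = xor b (g x)

/-- the function `x ↦ x v` -/
def lit (v : V) : Fn V := fun x => x v

/-- constants -/
def Cst (f : Fn V) : Prop := ∃ b : Bool, ∀ x, f x = b

/-- constants and literals of `X` -/
def Triv (X : Finset V) (f : Fn V) : Prop := Cst f ∨ ∃ v ∈ X, Opp f (lit v)

/-- the restriction `x v = c` -/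
def rest (v : V) (c : Bool) (f : Fn V) : Fn V := fun x => f (Function.update x v c)

omit [DecidableEq V] in
theorem Opp.refl (f : Fn V) : Opp f f := ⟨false, fun x => by simp⟩

omit [DecidableEq V] in
theorem Opp.symm {f g : Fn V} (h : Opp f g) : Opp g f := by
  obtain ⟨b, hb⟩ := h
  exact ⟨b, fun x => by rw [hb x]; cases b <;> simp⟩

omit [DecidableEq V] in
theorem Opp.trans {f g h : Fn V} (h1 : Opp f g) (h2 : Opp g h) : Opp f h := by
  obtain ⟨b, hb⟩ := h1
  obtain ⟨c, hc⟩ := h2
  exact ⟨xor b c, fun x => by rw [hb x, hc x]; simp⟩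

omit [DecidableEq V] in
theorem Cst.opp {f g : Fn V} (h : Opp f g) (hg : Cst g) : Cst f := by
  obtain ⟨b, hb⟩ := h
  obtain ⟨c, hc⟩ := hg
  exact ⟨xor b c, fun x => by rw [hb x, hc x]⟩

omit [DecidableEq V] in
theorem Triv.opp {X : Finset V} {f g : Fn V} (h : Opp f g) (hg : Triv X g) : Triv X f := by
  rcases hg with hg | ⟨v, hv, hg⟩
  · exact Or.inl (hg.opp h)
  · exact Or.inr ⟨v, hv, h.trans hg⟩

omit [DecidableEq V] in
theorem Triv.cst {X : Finset V} {f : Fn V} (h : Cst f) : Triv X f := Or.inl h

theorem Opp.rest {f g : Fn V} (h : Opp f g) (v : V) (c : Bool) :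
    Opp (rest v c f) (rest v c g) := by
  obtain ⟨b, hb⟩ := h
  exact ⟨b, fun x => hb _⟩

theorem Cst.rest {f : Fn V} (h : Cst f) (v : V) (c : Bool) : Cst (rest v c f) := by
  obtain ⟨b, hb⟩ := h
  exact ⟨b, fun x => hb _⟩

theorem rest_lit_self (v : V) (c : Bool) : Cst (rest v c (lit v)) :=
  ⟨c, fun x => by simp [rest, lit]⟩

theorem rest_lit_ne {v u : V} (c : Bool) (h : u ≠ v) : Opp (rest v c (lit u)) (lit u) :=
  ⟨false, fun x => by simp [rest, lit, Function.update_of_ne h]⟩

theorem Triv.rest {X : Finset V} {f : Fn V} (h : Triv X f) (v : V) (c : Bool) :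
    Triv (X.erase v) (rest v c f) := by
  rcases h with h | ⟨u, hu, h⟩
  · exact Or.inl (h.rest v c)
  · by_cases huv : u = v
    · subst huv
      exact Or.inl ((rest_lit_self u c).opp (h.rest u c))
    · exact Or.inr ⟨u, mem_erase.mpr ⟨huv, hu⟩, (h.rest v c).trans (rest_lit_ne c huv)⟩

/-- A straight-line program over the variables `X`. -/
structure SL (X : Finset V) where
  /-- number of functions -/
  s : ℕ
  /-- the functions -/
  F : ℕ → Fn V
  /-- first input -/
  A : ℕ → Fn V
  /-- second input -/
  B : ℕ → Fn V
  /-- negation of the first input -/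
  p : ℕ → Bool
  /-- negation of the second input -/
  q : ℕ → Bool
  /-- negation of the output -/
  r : ℕ → Bool
  hA : ∀ i < s, Triv X (A i) ∨ ∃ j < i, Opp (A i) (F j)
  hB : ∀ i < s, Triv X (B i) ∨ ∃ j < i, Opp (B i) (F j)
  hF : ∀ i < s, ∀ x, F i x = xor (r i) (xor (p i) (A i x) && xor (q i) (B i x))

/-- `F i` is neither trivial nor equal up to negation to an earlier function -/
def Ess {X : Finset V} (C : SL X) (i : ℕ) : Prop :=
  ¬ Triv X (C.F i) ∧ ∀ j < i, ¬ Opp (C.F i) (C.F j)

open Classical in
/-- the indices of the essential functions -/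
noncomputable def ess {X : Finset V} (C : SL X) : Finset ℕ := (range C.s).filter (Ess C)

/-- the cost -/
noncomputable def cost {X : Finset V} (C : SL X) : ℕ := (ess C).card

omit [DecidableEq V] in
theorem mem_ess {X : Finset V} {C : SL X} {i : ℕ} : i ∈ ess C ↔ i < C.s ∧ Ess C i := by
  simp [ess]

/-- gate `i` uses the function `f` -/
def Uses {X : Finset V} (C : SL X) (i : ℕ) (f : Fn V) : Prop := Opp (C.A i) f ∨ Opp (C.B i) f

/-- the restricted program -/
def SL.rest {X : Finset V} (C : SL X) (v : V) (c : Bool) : SL (X.erase v) where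
  s := C.s
  F := fun i => LG.rest v c (C.F i)
  A := fun i => LG.rest v c (C.A i)
  B := fun i => LG.rest v c (C.B i)
  p := C.p
  q := C.q
  r := C.r
  hA := by
    intro i hi
    rcases C.hA i hi with h | ⟨j, hj, h⟩
    · exact Or.inl (h.rest v c)
    · exact Or.inr ⟨j, hj, h.rest v c⟩
  hB := by
    intro i hi
    rcases C.hB i hi with h | ⟨j, hj, h⟩
    · exact Or.inl (h.rest v c)
    · exact Or.inr ⟨j, hj, h.rest v c⟩
  hF := fun i hi x => C.hF i hi _

theorem ess_rest {X : Finset V} {C : SL X} {v : V} {c : Bool} {i : ℕ}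
    (h : Ess (C.rest v c) i) : Ess C i := by
  refine ⟨fun ht => h.1 (ht.rest v c), fun j hj ho => h.2 j hj (ho.rest v c)⟩

theorem not_ess_rest {X : Finset V} {C : SL X} {v : V} {c : Bool} {i : ℕ} (hi : i < C.s)
    {f : Fn V} (hu : Uses C i f) (hf : Cst (rest v c f)) : ¬ Ess (C.rest v c) i := by
  intro he
  have key : ∀ (P Q : Fn V) (a b e : Bool),
      (∀ x, (C.rest v c).F i x = xor e (xor a (rest v c P x) && xor b (rest v c Q x))) →
      Cst (rest v c P) → (Triv (X.erase v) (rest v c Q) ∨ ∃ j < i,
        Opp (rest v c Q) ((C.rest v c).F j)) → False := by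
    intro P Q a b e h1 ⟨d, hd⟩ h3
    have h4 : Cst ((C.rest v c).F i) ∨ Opp ((C.rest v c).F i) (rest v c Q) := by
      by_cases hda : xor a d = true
      · right
        refine ⟨xor e b, fun x => ?_⟩
        rw [h1 x, hd x, hda]
        simp
      · left
        refine ⟨e, fun x => ?_⟩
        rw [h1 x, hd x]
        simp only [Bool.not_eq_true] at hda
        rw [hda]
        simp
    rcases h4 with h4 | h4
    · exact he.1 (Or.inl h4)
    · rcases h3 with h3 | ⟨j, hj, h3⟩
      · exact he.1 (h3.opp h4)
      · exact he.2 j hj (h4.trans h3)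
  rcases hu with hu | hu
  · exact key (C.A i) (C.B i) (C.p i) (C.q i) (C.r i) (fun x => C.hF i hi _)
      (hf.opp (hu.rest v c)) ((C.rest v c).hB i hi)
  · exact key (C.B i) (C.A i) (C.q i) (C.p i) (C.r i)
      (fun x => by
        show C.F i _ = _
        rw [C.hF i hi]
        show _ = xor (C.r i) (xor (C.q i) (C.B i _) && xor (C.p i) (C.A i _))
        rw [Bool.and_comm])
      (hf.opp (hu.rest v c)) ((C.rest v c).hA i hi)

theorem cost_rest {X : Finset V} (C : SL X) (v : V) (c : Bool) (E : Finset ℕ)
    (hE : ∀ i ∈ E, i ∈ ess C ∧ ¬ Ess (C.rest v c) i) :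
    cost (C.rest v c) + E.card ≤ cost C := by
  classical
  have h1 : Disjoint (ess (C.rest v c)) E := by
    rw [Finset.disjoint_left]
    intro i hi hiE
    exact (hE i hiE).2 (mem_ess.mp hi).2
  have h2 : ess (C.rest v c) ∪ E ⊆ ess C := by
    intro i hi
    rcases mem_union.mp hi with hi | hi
    · exact mem_ess.mpr ⟨(mem_ess.mp hi).1, ess_rest (mem_ess.mp hi).2⟩
    · exact (hE i hi).1
  have := card_le_card h2
  rw [card_union_of_disjoint h1] at this
  exact this

open Classical in
/-- An essential function which is not used by the other essential gates can be removed. -/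
theorem remove {X : Finset V} (C : SL X) (g : ℕ) (hg : g ∈ ess C)
    (hun : ∀ k ∈ ess C, k ≠ g → ¬ Uses C k (C.F g)) :
    ∃ C' : SL X, C'.s = C.s ∧ (∀ k, ¬ Opp (C.F k) (C.F g) → C'.F k = C.F k) ∧
      cost C' + 1 ≤ cost C := by
  have hgs := (mem_ess.mp hg).1
  have hge := (mem_ess.mp hg).2
  let C' : SL X :=
    { s := C.s
      F := fun k => if Opp (C.F k) (C.F g) then (fun _ => false) else C.F k
      A := fun k => if Opp (C.F k) (C.F g) then (fun _ => false) else
        if Ess C k then C.A k else C.F k
      B := fun k => if Opp (C.F k) (C.F g) then (fun _ => false) else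
        if Ess C k then C.B k else (fun _ => true)
      p := fun k => if Opp (C.F k) (C.F g) then false else if Ess C k then C.p k else false
      q := fun k => if Opp (C.F k) (C.F g) then false else if Ess C k then C.q k else false
      r := fun k => if Opp (C.F k) (C.F g) then false else if Ess C k then C.r k else false
      hA := by
        intro i hi
        by_cases h1 : Opp (C.F i) (C.F g)
        · simp only [h1, if_true]
          exact Or.inl (Or.inl ⟨false, fun _ => rfl⟩)
        · simp only [h1, if_false]
          by_cases h2 : Ess C i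
          · simp only [h2, if_true]
            have hig : i ≠ g := fun h => h1 (h ▸ Opp.refl _)
            rcases C.hA i hi with h | ⟨j, hj, h⟩
            · exact Or.inl h
            · refine Or.inr ⟨j, hj, ?_⟩
              by_cases h3 : Opp (C.F j) (C.F g)
              · exact absurd (Or.inl (h.trans h3)) (hun i (mem_ess.mpr ⟨hi, h2⟩) hig)
              · rw [if_neg h3]; exact h
          · simp only [h2, if_false]
            by_cases h4 : Triv X (C.F i)
            · exact Or.inl h4
            · have : ∃ j < i, Opp (C.F i) (C.F j) := by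
                by_contra hcon
                push Not at hcon
                exact h2 ⟨h4, hcon⟩
              obtain ⟨j, hj, h⟩ := this
              refine Or.inr ⟨j, hj, ?_⟩
              by_cases h3 : Opp (C.F j) (C.F g)
              · exact absurd (h.trans h3) h1
              · rw [if_neg h3]; exact h
      hB := by
        intro i hi
        by_cases h1 : Opp (C.F i) (C.F g)
        · simp only [h1, if_true]
          exact Or.inl (Or.inl ⟨false, fun _ => rfl⟩)
        · simp only [h1, if_false]
          by_cases h2 : Ess C i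
          · simp only [h2, if_true]
            have hig : i ≠ g := fun h => h1 (h ▸ Opp.refl _)
            rcases C.hB i hi with h | ⟨j, hj, h⟩
            · exact Or.inl h
            · refine Or.inr ⟨j, hj, ?_⟩
              by_cases h3 : Opp (C.F j) (C.F g)
              · exact absurd (Or.inr (h.trans h3)) (hun i (mem_ess.mpr ⟨hi, h2⟩) hig)
              · rw [if_neg h3]; exact h
          · simp only [h2, if_false]
            exact Or.inl (Or.inl ⟨true, fun _ => rfl⟩)
      hF := by
        intro i hi x
        by_cases h1 : Opp (C.F i) (C.F g)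
        · simp only [h1, if_true]
          rfl
        · simp only [h1, if_false]
          by_cases h2 : Ess C i
          · simp only [h2, if_true]
            exact C.hF i hi x
          · simp only [h2, if_false]
            simp }
  have hF' : ∀ k, C'.F k = if Opp (C.F k) (C.F g) then (fun _ => false) else C.F k :=
    fun k => rfl
  refine ⟨C', rfl, fun k hk => by rw [hF', if_neg hk], ?_⟩
  have h1 : ess C' ⊆ (ess C).erase g := by
    intro k hk
    obtain ⟨hks, hke⟩ := mem_ess.mp hk
    have hno : ¬ Opp (C.F k) (C.F g) := by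
      intro ho
      apply hke.1
      rw [hF', if_pos ho]
      exact Or.inl ⟨false, fun _ => rfl⟩
    have hFk : C'.F k = C.F k := by rw [hF', if_neg hno]
    refine mem_erase.mpr ⟨fun h => hno (h ▸ Opp.refl _), mem_ess.mpr ⟨hks, ?_, ?_⟩⟩
    · rw [← hFk]; exact hke.1
    · intro j hj ho
      by_cases h3 : Opp (C.F j) (C.F g)
      · exact hno (ho.trans h3)
      · apply hke.2 j hj
        rw [hFk, hF', if_neg h3]
        exact ho
  have h2 := card_le_card h1
  rw [card_erase_of_mem hg] at h2
  have h3 : 0 < (ess C).card := card_pos.mpr ⟨g, hg⟩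
  unfold cost
  omega

/-- The first essential gate is a conjunction of two literals of different variables. -/
theorem first {X : Finset V} (C : SL X) (h : (ess C).Nonempty) :
    ∃ g ∈ ess C, ∃ i ∈ X, ∃ j ∈ X, i ≠ j ∧ Opp (C.A g) (lit i) ∧ Opp (C.B g) (lit j) ∧
      ∃ a b e : Bool, ∀ x, C.F g x = xor e (xor a (x i) && xor b (x j)) := by
  classical
  obtain ⟨g, hg, hmin⟩ := (ess C).exists_min_image id h
  have hgs := (mem_ess.mp hg).1
  have hge := (mem_ess.mp hg).2
  have htriv : ∀ k, k < g → Triv X (C.F k) := by
    intro k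
    induction k using Nat.strong_induction_on with
    | _ k ih =>
      intro hk
      by_contra hcon
      have : ¬ Ess C k := by
        intro he
        have := hmin k (mem_ess.mpr ⟨hk.trans hgs, he⟩)
        simp only [id] at this
        omega
      apply this
      refine ⟨hcon, fun j hj ho => hcon ((ih j hj (hj.trans hk)).opp ho)⟩
  have hA : Triv X (C.A g) := by
    rcases C.hA g hgs with h | ⟨j, hj, h⟩
    · exact h
    · exact (htriv j hj).opp h
  have hB : Triv X (C.B g) := by
    rcases C.hB g hgs with h | ⟨j, hj, h⟩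
    · exact h
    · exact (htriv j hj).opp h
  have hF := C.hF g hgs
  rcases hA with ⟨d, hd⟩ | ⟨i, hi, hAi⟩
  · exfalso
    apply hge.1
    by_cases hda : xor (C.p g) d = true
    · refine hB.opp ⟨xor (C.r g) (C.q g), fun x => ?_⟩
      rw [hF x, hd x, hda]
      simp
    · refine Or.inl ⟨C.r g, fun x => ?_⟩
      simp only [Bool.not_eq_true] at hda
      rw [hF x, hd x, hda]
      simp
  rcases hB with ⟨d, hd⟩ | ⟨j, hj, hBj⟩
  · exfalso
    apply hge.1
    by_cases hda : xor (C.q g) d = true
    · refine Triv.opp (g := C.A g) ⟨xor (C.r g) (C.p g), fun x => ?_⟩ (Or.inr ⟨i, hi, hAi⟩)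
      rw [hF x, hd x, hda]
      simp
    · refine Or.inl ⟨C.r g, fun x => ?_⟩
      simp only [Bool.not_eq_true] at hda
      rw [hF x, hd x, hda]
      simp
  obtain ⟨a, ha⟩ := hAi
  obtain ⟨b, hb⟩ := hBj
  have hFe : ∀ x, C.F g x = xor (C.r g) (xor (xor (C.p g) a) (x i) &&
      xor (xor (C.q g) b) (x j)) := by
    intro x
    rw [hF x, ha x, hb x]
    simp [lit]
  refine ⟨g, hg, i, hi, j, hj, ?_, ⟨a, ha⟩, ⟨b, hb⟩, _, _, _, hFe⟩
  rintro rfl
  apply hge.1
  generalize xor (C.p g) a = a' at hFe
  generalize xor (C.q g) b = b' at hFe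
  generalize C.r g = r' at hFe
  by_cases hab : a' = b'
  · subst hab
    exact Or.inr ⟨i, hi, xor r' a', fun x => by rw [hFe x]; simp [lit]⟩
  · refine Or.inl ⟨r', fun x => ?_⟩
    rw [hFe x]
    cases a' <;> cases b' <;> simp at hab ⊢

end Pool.Agent.W2helper86.LG
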