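import Pool.Agent.W2helper86.LG.Circ

/-!
# The generator of a linear code

If the image of `G` is the set of all `x` which satisfy the parity checks `B k`, then the
expectation of `f` over the image of `G` is the average over all sets `T` of parity checks of the
correlations of `f` with the sums of the checks in `T`.
-/

set_option autoImplicit false

namespace Pool.Agent.W2helper86.LG

open Finset

variable {V K : Type} [DecidableEq V] [Fintype V] [DecidableEq K] [Fintype K]

/-- the support of the sum of the parity checks in `T` -/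
def wt (B : K → Finset V) (T : Finset K) : Finset V :=
  univ.filter fun v => Odd (T.filter fun k => v ∈ B k).card

theorem sg_pow (b : Bool) (n : ℕ) : sg b ^ n = if Odd n then sg b else 1 := by
  split_ifs with h
  · obtain ⟨t, rfl⟩ := h
    rw [pow_add, pow_mul, pow_two, sg_sq, one_pow, pow_one, one_mul]
  · rw [Nat.not_odd_iff_even] at h
    obtain ⟨t, rfl⟩ := h
    rw [← two_mul, pow_mul, pow_two, sg_sq, one_pow]

theorem prod_checks (B : K → Finset V) (T : Finset K) (x : V → Bool) :
    ∏ k ∈ T, ∏ v ∈ B k, sg (x v) = ∏ v ∈ wt B T, sg (x v) := by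
  have h1 : ∀ k ∈ T, ∏ v ∈ B k, sg (x v) = ∏ v : V, if v ∈ B k then sg (x v) else 1 := by
    intro k _
    rw [prod_ite_mem, univ_inter]
  rw [prod_congr rfl h1, prod_comm]
  unfold wt
  rw [prod_filter]
  refine prod_congr rfl fun v _ => ?_
  rw [← prod_filter, prod_const, sg_pow]

/-- a sign -/
theorem prod_sg_cases (W : Finset V) (x : V → Bool) :
    ∏ v ∈ W, sg (x v) = 1 ∨ ∏ v ∈ W, sg (x v) = -1 := by
  have h : (∏ v ∈ W, sg (x v)) * (∏ v ∈ W, sg (x v)) = 1 := by
    rw [← prod_mul_distrib]
    exact prod_eq_one fun v _ => sg_sq _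
  exact mul_self_eq_one_iff.mp h

theorem gen_sum {S : Type} [Fintype S] (G : S → V → Bool) (hG : Function.Injective G)
    (B : K → Finset V)
    (hB : ∀ x, (∃ s, G s = x) ↔ ∀ k, ∏ v ∈ B k, sg (x v) = 1) (f : Fn V) :
    2 ^ Fintype.card K * ∑ s, sg (f (G s)) = ∑ T : Finset K, cr (wt B T) f := by
  classical
  have h1 : ∀ x : V → Bool, ∏ k : K, (1 + ∏ v ∈ B k, sg (x v)) =
      if ∃ s, G s = x then 2 ^ Fintype.card K else 0 := by
    intro x
    by_cases h : ∃ s, G s = x
    · rw [if_pos h]
      have h2 := (hB x).mp h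
      rw [prod_congr rfl fun k _ => by rw [h2 k]]
      rw [prod_const]
      norm_num
    · rw [if_neg h]
      have h2 : ¬ ∀ k, ∏ v ∈ B k, sg (x v) = 1 := fun hk => h ((hB x).mpr hk)
      push Not at h2
      obtain ⟨k, hk⟩ := h2
      refine prod_eq_zero (mem_univ k) ?_
      rcases prod_sg_cases (B k) x with h3 | h3
      · exact absurd h3 hk
      · rw [h3]; norm_num
  have h2 : ∀ x : V → Bool, ∏ k : K, (1 + ∏ v ∈ B k, sg (x v)) =
      ∑ T : Finset K, ∏ v ∈ wt B T, sg (x v) := by
    intro x
    rw [prod_one_add]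
    rw [← powerset_univ]
    refine sum_congr rfl fun T _ => prod_checks B T x
  calc 2 ^ Fintype.card K * ∑ s, sg (f (G s))
      = ∑ x ∈ univ.image G, 2 ^ Fintype.card K * sg (f x) := by
        rw [sum_image (fun a _ b _ h => hG h), mul_sum]
    _ = ∑ x : V → Bool, sg (f x) * (if ∃ s, G s = x then 2 ^ Fintype.card K else 0) := by
        rw [← sum_filter_add_sum_filter_not univ (fun x => ∃ s, G s = x)]
        have e1 : univ.image G = univ.filter (fun x => ∃ s, G s = x) := by
          ext x; simp
        rw [e1]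
        have e2 : ∑ x ∈ univ.filter (fun x => ¬ ∃ s, G s = x),
            sg (f x) * (if ∃ s, G s = x then (2 : ℝ) ^ Fintype.card K else 0) = 0 := by
          refine sum_eq_zero fun x hx => ?_
          rw [if_neg (mem_filter.mp hx).2, mul_zero]
        rw [e2, add_zero]
        refine sum_congr rfl fun x hx => ?_
        rw [if_pos (mem_filter.mp hx).2, mul_comm]
    _ = ∑ x : V → Bool, ∑ T : Finset K, sg (f x) * ∏ v ∈ wt B T, sg (x v) := by
        refine sum_congr rfl fun x _ => ?_
        rw [← h1 x, h2 x, mul_sum]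
    _ = ∑ T : Finset K, cr (wt B T) f := by
        rw [sum_comm]
        rfl

/-- **The generator of a linear code with large dual distance fools every function with small
correlation with parities.** -/
theorem gen_bound {S : Type} [Fintype S] (G : S → V → Bool) (hG : Function.Injective G)
    (B : K → Finset V)
    (hB : ∀ x, (∃ s, G s = x) ↔ ∀ k, ∏ v ∈ B k, sg (x v) = 1)
    (hcard : Fintype.card S * 2 ^ Fintype.card K = 2 ^ Fintype.card V) (f : Fn V) (E : ℝ)
    (hE : ∀ T : Finset K, T.Nonempty → |cr (wt B T) f| ≤ 2 ^ Fintype.card V * E) (hE0 : 0 ≤ E) :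
    |(∑ s, sg (f (G s))) / Fintype.card S - (∑ x, sg (f x)) / 2 ^ Fintype.card V| ≤
      2 ^ Fintype.card K * E := by
  have h1 := gen_sum G hG B hB f
  have hK : (0 : ℝ) < 2 ^ Fintype.card K := by positivity
  have hV : (0 : ℝ) < 2 ^ Fintype.card V := by positivity
  have hc : (Fintype.card S : ℝ) * 2 ^ Fintype.card K = 2 ^ Fintype.card V := by
    exact_mod_cast hcard
  have hS : (0 : ℝ) < Fintype.card S := by
    by_contra h
    push Not at h
    nlinarith
  have h2 : ∑ T : Finset K, cr (wt B T) f = cr ∅ f +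
      ∑ T ∈ (univ : Finset (Finset K)).erase ∅, cr (wt B T) f := by
    rw [← add_sum_erase univ _ (mem_univ ∅)]
    congr 2
    unfold wt
    ext v
    simp
  have h3 : cr ∅ f = ∑ x, sg (f x) := by
    unfold cr
    simp
  have h4 : (∑ s, sg (f (G s))) / Fintype.card S - (∑ x, sg (f x)) / 2 ^ Fintype.card V =
      (∑ T ∈ (univ : Finset (Finset K)).erase ∅, cr (wt B T) f) / 2 ^ Fintype.card V := by
    rw [h2, h3] at h1
    rw [← hc, ← hc] at *
    field_simp
    linarith
  rw [h4, abs_div, abs_of_pos hV, div_le_iff₀ hV]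
  calc |∑ T ∈ (univ : Finset (Finset K)).erase ∅, cr (wt B T) f|
      ≤ ∑ T ∈ (univ : Finset (Finset K)).erase ∅, |cr (wt B T) f| := abs_sum_le_sum_abs _ _
    _ ≤ ∑ T ∈ (univ : Finset (Finset K)).erase ∅, 2 ^ Fintype.card V * E := by
        refine sum_le_sum fun T hT => hE T ?_
        exact nonempty_iff_ne_empty.mpr (mem_erase.mp hT).1
    _ ≤ ∑ _T : Finset K, 2 ^ Fintype.card V * E := by
        refine sum_le_sum_of_subset_of_nonneg (erase_subset _ _) fun _ _ _ => by positivity
    _ = 2 ^ Fintype.card K * E * 2 ^ Fintype.card V := by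
        rw [sum_const, card_univ, Fintype.card_finset, nsmul_eq_mul]
        push_cast
        ring

end Pool.Agent.W2helper86.LG
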