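import Pool.Agent.W2helper86.LG.Poly

/-!
# The inner code

A word `a` of length `61 r` defines a linear map from words `y` of length `r` to words of length
`60 r`; for some `a` all values at non-zero words have weight at least `25 r`.
-/

set_option autoImplicit false

namespace Pool.Agent.W2helper86.LG

/-- inner product of bit lists -/
def ip : List Bool → List Bool → Bool
  | a :: u, b :: y => xor (a && b) (ip u y)
  | _, _ => false

theorem ip_eq_count (u y : List Bool) :
    ip u y = decide ((List.zipWith (fun a b => a && b) u y).count true % 2 = 1) := by
  induction u generalizing y with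
  | nil => simp [ip]
  | cons a u ih =>
    cases y with
    | nil => simp [ip]
    | cons b y =>
      rw [ip, ih, List.zipWith_cons_cons, List.count_cons]
      generalize (List.zipWith (fun a b => a && b) u y).count true = t
      have h : t % 2 = 0 ∨ t % 2 = 1 := by omega
      cases hab : (a && b)
      · simp
      · simp only [beq_self_eq_true, if_true, Bool.true_xor]
        rcases h with h | h
        · have : (t + 1) % 2 = 1 := by omega
          simp [h, this]
        · have : (t + 1) % 2 = 0 := by omega
          simp [h, this]

theorem ip_xor (u : List Bool) : ∀ {y z : List Bool}, y.length = z.length →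
    ip u (List.zipWith xor y z) = xor (ip u y) (ip u z) := by
  induction u with
  | nil => intro y z _; simp [ip]
  | cons a u ih =>
    intro y z h
    cases y with
    | nil =>
      have : z = [] := List.length_eq_zero_iff.mp h.symm
      subst this
      simp [ip]
    | cons b y =>
      cases z with
      | nil => simp at h
      | cons c z =>
        simp only [List.length_cons, Nat.add_right_cancel_iff] at h
        rw [List.zipWith_cons_cons, ip, ip, ip, ih h]
        cases a <;> cases b <;> cases c <;> simp

theorem ip_replicate (u : List Bool) (n : ℕ) : ip u (List.replicate n false) = false := by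
  induction u generalizing n with
  | nil => simp [ip]
  | cons a u ih =>
    cases n with
    | zero => simp [ip]
    | succ n => simp [List.replicate_succ, ip, ih]

/-- parity of a natural number -/
def par (n : ℕ) : Bool := decide (n % 2 = 1)

theorem par_add (a b : ℕ) : par (a + b) = xor (par a) (par b) := by
  unfold par
  rcases Nat.mod_two_eq_zero_or_one a with h | h <;> rcases Nat.mod_two_eq_zero_or_one b with h' | h'
  · have : (a + b) % 2 = 0 := by omega
    simp [h, h', this]
  · have : (a + b) % 2 = 1 := by omega
    simp [h, h', this]
  · have : (a + b) % 2 = 1 := by omega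
    simp [h, h', this]
  · have : (a + b) % 2 = 0 := by omega
    simp [h, h', this]

theorem ip_combo (u : List Bool) (k : ℕ) (L : List (List Bool)) (hL : ∀ l ∈ L, l.length = k) :
    ip u (combo k L) = par (L.countP (ip u)) := by
  have : ∀ (L : List (List Bool)), (∀ l ∈ L, l.length = k) → ∀ s : List Bool, s.length = k →
      ip u (L.foldl (List.zipWith xor) s) = xor (ip u s) (par (L.countP (ip u))) := by
    intro L
    induction L with
    | nil => intro _ s _; simp [par]
    | cons l L ih =>
      intro hL s hs
      have hl : l.length = k := hL l List.mem_cons_self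
      rw [List.foldl_cons, ih (fun l' h => hL l' (List.mem_cons_of_mem _ h)) _ (by simp [hs, hl]),
        ip_xor u (hs.trans hl.symm), List.countP_cons, par_add]
      cases ip u l <;> simp [par]
  have h := this L hL (List.replicate k false) (by simp)
  rw [ip_replicate, Bool.false_xor] at h
  exact h

/-- the value of the inner code -/
def word (n : ℕ) (a y : List Bool) : List Bool := (List.range n).map fun l => ip (a.drop l) y

/-- number of ones -/
def ones (l : List Bool) : ℕ := l.count true

theorem ip_single : ∀ (u y : List Bool) (j : ℕ), y.getD j false = true →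
    (∀ i, j < i → y.getD i false = false) → (∀ i < j, u.getD i false = false) →
    ip u y = u.getD j false := by
  have hz : ∀ (u y : List Bool), (∀ i, y.getD i false = false) → ip u y = false := by
    intro u
    induction u with
    | nil => intro y _; simp [ip]
    | cons a u ih =>
      intro y hy
      cases y with
      | nil => simp [ip]
      | cons b y =>
        have h1 : b = false := hy 0
        rw [ip, ih y (fun i => hy (i + 1)), h1]
        simp
  intro u
  induction u with
  | nil => intro y j _ _ _; simp [ip]
  | cons a u ih =>
    intro y j h1 h2 h3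
    cases y with
    | nil => simp at h1
    | cons b y =>
      cases j with
      | zero =>
        rw [List.getD_cons_zero] at h1
        rw [ip, hz u y (fun i => h2 (i + 1) (by omega)), h1]
        simp
      | succ j =>
        have h4 : a = false := h3 0 (by omega)
        rw [ip, ih y j h1 (fun i hi => h2 (i + 1) (by omega)) (fun i hi => h3 (i + 1) (by omega)),
          h4]
        simp

theorem ip_comm (u y : List Bool) : ip u y = ip y u := by
  induction u generalizing y with
  | nil => cases y <;> simp [ip]
  | cons a u ih =>
    cases y with
    | nil => simp [ip]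
    | cons b y => rw [ip, ip, ih, Bool.and_comm]

theorem ip_xor_left (y : List Bool) {u v : List Bool} (h : u.length = v.length) :
    ip (List.zipWith xor u v) y = xor (ip u y) (ip v y) := by
  rw [ip_comm, ip_xor y h, ip_comm y u, ip_comm y v]

/-- the last position of a one -/
theorem exists_last {y : List Bool} (h : y.any id = true) :
    ∃ j < y.length, y.getD j false = true ∧ ∀ i, j < i → y.getD i false = false := by
  induction y with
  | nil => simp at h
  | cons b y ih =>
    by_cases h1 : y.any id = true
    · obtain ⟨j, hj, h2, h3⟩ := ih h1
      refine ⟨j + 1, by simp; omega, by simpa using h2, ?_⟩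
      intro i hi
      cases i with
      | zero => omega
      | succ i => simpa using h3 i (by omega)
    · have hb : b = true := by
        rw [List.any_cons, Bool.or_eq_true] at h
        rcases h with h | h
        · exact h
        · exact absurd h h1
      refine ⟨0, by simp, by simpa using hb, ?_⟩
      intro i hi
      cases i with
      | zero => omega
      | succ i =>
        rw [Bool.not_eq_true, List.any_eq_false] at h1
        by_cases hl : i < y.length
        · rw [List.getD_cons_succ, List.getD_eq_getElem _ _ hl]
          have := h1 _ (List.getElem_mem hl)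
          simpa using this
        · rw [List.getD_cons_succ, List.getD_eq_default _ _ (by omega)]

theorem getD_drop (a : List Bool) (l i : ℕ) : (a.drop l).getD i false = a.getD (l + i) false := by
  rw [List.getD_eq_getElem?_getD, List.getElem?_drop, ← List.getD_eq_getElem?_getD]

theorem getD_take (a : List Bool) {l i : ℕ} (h : i < l) :
    (a.take l).getD i false = a.getD i false := by
  rw [List.getD_eq_getElem?_getD, List.getElem?_take_of_lt h, ← List.getD_eq_getElem?_getD]

/-- `a` is determined by its values at a non-zero word and `r` of its bits. -/
theorem word_inj {n r : ℕ} {y : List Bool} {j : ℕ} (hj : j < r) (h1 : y.getD j false = true)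
    (h2 : ∀ i, j < i → y.getD i false = false) {a b : List Bool} (ha : a.length = n + r)
    (hb : b.length = n + r) (hw : word n a y = word n b y) (ht : a.take j = b.take j)
    (hd : a.drop (n + j) = b.drop (n + j)) : a = b := by
  set c := List.zipWith xor a b with hc
  have hcl : c.length = n + r := by rw [hc]; simp [ha, hb]
  have hcg : ∀ i, c.getD i false = xor (a.getD i false) (b.getD i false) := by
    intro i
    by_cases hi : i < n + r
    · rw [List.getD_eq_getElem _ _ (by omega), List.getD_eq_getElem _ _ (by omega),
        List.getD_eq_getElem _ _ (by omega)]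
      simp [hc]
    · rw [List.getD_eq_default _ _ (by omega), List.getD_eq_default _ _ (by omega),
        List.getD_eq_default _ _ (by omega)]
      rfl
  have hz : ∀ i, c.getD i false = false := by
    intro i
    induction i using Nat.strong_induction_on with
    | _ i ih =>
      by_cases hi1 : i < j
      · rw [hcg, ← getD_take a hi1, ← getD_take b hi1, ht]
        simp
      by_cases hi2 : n + j ≤ i
      · have e : i = n + j + (i - (n + j)) := by omega
        rw [hcg, e, ← getD_drop a, ← getD_drop b, hd]
        simp
      have hl : i - j < n := by omega
      have h3 : ip (a.drop (i - j)) y = ip (b.drop (i - j)) y := by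
        have := congrArg (fun w => w.getD (i - j) false) hw
        simp only [word] at this
        rw [List.getD_eq_getElem _ _ (by simpa using hl),
          List.getD_eq_getElem _ _ (by simpa using hl)] at this
        simpa using this
      have h4 : ip (c.drop (i - j)) y = false := by
        rw [hc, List.drop_zipWith, ip_xor_left y (by simp [ha, hb]), h3]
        simp
      rw [ip_single (c.drop (i - j)) y j h1 h2 (fun i' hi' => by
        rw [getD_drop]; exact ih _ (by omega)), getD_drop] at h4
      rwa [show i - j + j = i by omega] at h4
  apply List.ext_getElem (ha.trans hb.symm)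
  intro i hi hi'
  have h5 := hz i
  rw [hcg, List.getD_eq_getElem _ _ hi, List.getD_eq_getElem _ _ hi'] at h5
  cases h6 : a[i] <;> cases h7 : b[i] <;> simp [h6, h7] at h5 ⊢

/-- The fibres of the inner codes. -/
theorem card_fiber {n r : ℕ} {y : List Bool} (hy : y.length = r) (h : y.any id = true)
    (t : List Bool) :
    ((allL (n + r)).toFinset.filter fun a => word n a y = t).card ≤ 2 ^ r := by
  classical
  obtain ⟨j, hj, h1, h2⟩ := exists_last h
  rw [hy] at hj
  have hmap : ∀ a ∈ (allL (n + r)).toFinset.filter fun a => word n a y = t,
      a.take j ++ a.drop (n + j) ∈ (allL r).toFinset := by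
    intro a ha
    rw [Finset.mem_filter, List.mem_toFinset, mem_allL] at ha
    rw [List.mem_toFinset, mem_allL]
    simp [ha.1]
    omega
  have hinj : Set.InjOn (fun a : List Bool => a.take j ++ a.drop (n + j))
      ((allL (n + r)).toFinset.filter fun a => word n a y = t : Finset (List Bool)) := by
    intro a ha b hb hab
    rw [Finset.mem_coe, Finset.mem_filter, List.mem_toFinset, mem_allL] at ha hb
    have hl : (a.take j).length = (b.take j).length := by simp [ha.1, hb.1]
    have hab' : a.take j ++ a.drop (n + j) = b.take j ++ b.drop (n + j) := hab
    obtain ⟨e1, e2⟩ := List.append_inj hab' hl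
    exact word_inj hj h1 h2 ha.1 hb.1 (ha.2.trans hb.2.symm) e1 e2
  have h3 := Finset.card_le_card_of_injOn _ hmap hinj
  refine h3.trans ((List.toFinset_card_le _).trans (length_allL r).le)

/-- the words of small weight -/
def light (n k : ℕ) : Finset (List Bool) := (allL n).toFinset.filter fun t => ones t < k

theorem sum_pow_ones (p q n : ℕ) :
    ∑ t ∈ (allL n).toFinset, p ^ ones t * q ^ (n - ones t) = (p + q) ^ n := by
  induction n with
  | zero => simp [allL, ones]
  | succ n ih =>
    have h1 : (allL (n + 1)).toFinset = (allL n).toFinset.image (fun l => false :: l) ∪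
        (allL n).toFinset.image (fun l => true :: l) := by
      ext l
      simp only [List.mem_toFinset, mem_allL, Finset.mem_union, Finset.mem_image]
      constructor
      · intro h
        cases l with
        | nil => simp at h
        | cons b l =>
          simp only [List.length_cons, Nat.add_right_cancel_iff] at h
          cases b
          · exact Or.inl ⟨l, h, rfl⟩
          · exact Or.inr ⟨l, h, rfl⟩
      · rintro (⟨l', h, rfl⟩ | ⟨l', h, rfl⟩) <;> simp [h]
    have h2 : Disjoint ((allL n).toFinset.image (fun l => false :: l))
        ((allL n).toFinset.image (fun l => true :: l)) := by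
      rw [Finset.disjoint_left]
      intro l hl hl'
      rw [Finset.mem_image] at hl hl'
      obtain ⟨l1, -, rfl⟩ := hl
      obtain ⟨l2, -, h⟩ := hl'
      simp at h
    rw [h1, Finset.sum_union h2, Finset.sum_image (fun a _ b _ h => by simpa using h),
      Finset.sum_image (fun a _ b _ h => by simpa using h), pow_succ, ← ih, Finset.sum_mul,
      ← Finset.sum_add_distrib]
    refine Finset.sum_congr rfl fun t ht => ?_
    rw [List.mem_toFinset, mem_allL] at ht
    have h3 : ones t ≤ n := by
      rw [← ht]; exact List.count_le_length
    have h4 : ones (false :: t) = ones t := by simp [ones]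
    have h5 : ones (true :: t) = ones t + 1 := by simp [ones]
    rw [h4, h5, show n + 1 - ones t = (n - ones t) + 1 by omega,
      show n + 1 - (ones t + 1) = n - ones t by omega, pow_succ, pow_succ]
    ring

/-- Volume of the ball. -/
theorem card_light (r : ℕ) : (light (60 * r) (25 * r)).card ≤ 2 ^ (59 * r) := by
  have h1 : (light (60 * r) (25 * r)).card * (5 ^ (25 * r) * 7 ^ (35 * r)) ≤ 12 ^ (60 * r) := by
    have h := sum_pow_ones 5 7 (60 * r)
    calc (light (60 * r) (25 * r)).card * (5 ^ (25 * r) * 7 ^ (35 * r))
        = ∑ _t ∈ light (60 * r) (25 * r), 5 ^ (25 * r) * 7 ^ (35 * r) := by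
          rw [Finset.sum_const, smul_eq_mul]
      _ ≤ ∑ t ∈ light (60 * r) (25 * r), 5 ^ ones t * 7 ^ (60 * r - ones t) := by
          refine Finset.sum_le_sum fun t ht => ?_
          have h2 : ones t < 25 * r := (Finset.mem_filter.mp ht).2
          have h3 : 5 ^ (25 * r) = 5 ^ ones t * 5 ^ (25 * r - ones t) := by
            rw [← pow_add]; congr 1; omega
          have h4 : 7 ^ (60 * r - ones t) = 7 ^ (25 * r - ones t) * 7 ^ (35 * r) := by
            rw [← pow_add]; congr 1; omega
          rw [h3, h4]
          have h5 : 5 ^ (25 * r - ones t) ≤ 7 ^ (25 * r - ones t) :=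
            Nat.pow_le_pow_left (by norm_num) _
          calc 5 ^ ones t * 5 ^ (25 * r - ones t) * 7 ^ (35 * r)
              ≤ 5 ^ ones t * 7 ^ (25 * r - ones t) * 7 ^ (35 * r) := by gcongr
            _ = _ := by ring
      _ ≤ ∑ t ∈ (allL (60 * r)).toFinset, 5 ^ ones t * 7 ^ (60 * r - ones t) :=
          Finset.sum_le_sum_of_subset (Finset.filter_subset _ _)
      _ = 12 ^ (60 * r) := h
  have h2 : 12 ^ (60 * r) ≤ 2 ^ (59 * r) * (5 ^ (25 * r) * 7 ^ (35 * r)) := by
    rw [pow_mul, pow_mul, pow_mul, pow_mul, ← mul_pow, ← mul_pow]
    exact Nat.pow_le_pow_left (by norm_num) r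
  exact Nat.le_of_mul_le_mul_right (h1.trans h2) (by positivity)

/-- all values of the inner code at non-zero words are heavy -/
def good (r : ℕ) (a : List Bool) : Bool :=
  (allL r).all fun y => !(y.any id) || decide (25 * r ≤ ones (word (60 * r) a y))

theorem exists_good (r : ℕ) : ∃ a ∈ allL (61 * r), good r a = true := by
  classical
  by_contra hcon
  push Not at hcon
  have h1 : (allL (61 * r)).toFinset ⊆ ((allL r).toFinset.filter fun y => y.any id = true).biUnion
      fun y => (light (60 * r) (25 * r)).biUnion fun t =>
        (allL (60 * r + r)).toFinset.filter fun a => word (60 * r) a y = t := by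
    intro a ha
    rw [List.mem_toFinset] at ha
    have h2 := hcon a ha
    unfold good at h2
    rw [Ne, Bool.not_eq_true, List.all_eq_false] at h2
    obtain ⟨y, hy, hy2⟩ := h2
    simp only [Bool.or_eq_true, not_or, Bool.not_eq_true, Bool.not_eq_false',
      decide_eq_false_iff_not, not_le] at hy2
    rw [Finset.mem_biUnion]
    refine ⟨y, ?_, ?_⟩
    · rw [Finset.mem_filter, List.mem_toFinset]
      exact ⟨hy, hy2.1⟩
    · rw [Finset.mem_biUnion]
      refine ⟨word (60 * r) a y, ?_, ?_⟩
      · unfold light
        rw [Finset.mem_filter, List.mem_toFinset, mem_allL]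
        exact ⟨by simp [word], hy2.2⟩
      · rw [Finset.mem_filter, List.mem_toFinset]
        refine ⟨?_, rfl⟩
        rw [mem_allL] at ha ⊢
        omega
  have h2 := Finset.card_le_card h1
  rw [List.toFinset_card_of_nodup (nodup_allL _), length_allL] at h2
  have h3 : (((allL r).toFinset.filter fun y => y.any id = true).biUnion
      fun y => (light (60 * r) (25 * r)).biUnion fun t =>
        (allL (60 * r + r)).toFinset.filter fun a => word (60 * r) a y = t).card ≤
      ((allL r).toFinset.filter fun y => y.any id = true).card * (2 ^ (59 * r) * 2 ^ r) := by
    refine Finset.card_biUnion_le_card_mul _ _ _ fun y hy => ?_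
    rw [Finset.mem_filter, List.mem_toFinset, mem_allL] at hy
    refine (Finset.card_biUnion_le_card_mul _ _ _ fun t _ => card_fiber hy.1 hy.2 t).trans ?_
    exact Nat.mul_le_mul_right _ (card_light r)
  have h4 : ((allL r).toFinset.filter fun y => y.any id = true).card < 2 ^ r := by
    have h5 : ((allL r).toFinset.filter fun y => y.any id = true) ⊂ (allL r).toFinset := by
      rw [Finset.filter_ssubset]
      refine ⟨List.replicate r false, ?_, ?_⟩
      · rw [List.mem_toFinset, mem_allL]; simp
      · simp
    have := Finset.card_lt_card h5
    rwa [List.toFinset_card_of_nodup (nodup_allL _), length_allL] at this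
  have h6 : 2 ^ (61 * r) = 2 ^ r * (2 ^ (59 * r) * 2 ^ r) := by
    rw [← pow_add, ← pow_add]; congr 1; ring
  have h7 := h2.trans h3
  rw [h6] at h7
  have h8 : 0 < 2 ^ (59 * r) * 2 ^ r := by positivity
  have := Nat.le_of_mul_le_mul_right h7 h8
  omega

/-- the inner code -/
def inner (r : ℕ) : List Bool := ((allL (61 * r)).find? (good r)).getD []

theorem inner_good (r : ℕ) : good r (inner r) = true := by
  obtain ⟨a, ha, hg⟩ := exists_good r
  unfold inner
  cases h : (allL (61 * r)).find? (good r) with
  | none =>
    rw [List.find?_eq_none] at h
    exact absurd hg (h a ha)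
  | some b => exact List.find?_some h

theorem inner_dist {r : ℕ} {y : List Bool} (hy : y.length = r) (h : y.any id = true) :
    25 * r ≤ (List.range (60 * r)).countP fun l => ip ((inner r).drop l) y := by
  have h1 := inner_good r
  unfold good at h1
  rw [List.all_eq_true] at h1
  have h2 := h1 y (mem_allL.mpr hy)
  rw [h] at h2
  simp only [Bool.not_true, Bool.false_or, decide_eq_true_eq] at h2
  refine h2.trans (le_of_eq ?_)
  unfold ones word
  rw [List.count, List.countP_map]
  congr 1
  funext l
  simp

end Pool.Agent.W2helper86.LG
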