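import Pool.Agent.W2helper86.LG.Gen
import Pool.Agent.W2helper86.LG.Comp

/-!
# The generator fools circuits of linear size
-/

set_option autoImplicit false

namespace Pool.Agent.W2helper86.LG

open Finset

theorem prod_sg {V : Type} [DecidableEq V] (W : Finset V) (x : V → Bool) :
    ∏ v ∈ W, sg (x v) = sg (par (W.filter fun v => x v = true).card) := by
  induction W using Finset.induction_on with
  | empty => simp [par, sg]
  | insert a W ha ih =>
    rw [prod_insert ha, ih, filter_insert]
    split_ifs with h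
    · rw [card_insert_of_notMem (fun h' => ha (mem_filter.mp h').1), par_add, sg_xor, h]
      have h1 : par 1 = true := rfl
      rw [h1, mul_comm]
    · simp only [Bool.not_eq_true] at h
      rw [h]
      simp [sg]

theorem sg_eq_one {b : Bool} : sg b = 1 ↔ b = false := by
  cases b
  · simp [sg]
  · simp [sg]; norm_num

/-- extension by `false` -/
def ext {m : ℕ} (x : Fin m → Bool) (i : ℕ) : Bool := if h : i < m then x ⟨i, h⟩ else false

theorem ext_fin {m : ℕ} (x : Fin m → Bool) (v : Fin m) : ext x v.val = x v := by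
  simp [ext]

/-- the parity checks, as functions on the natural numbers -/
def Bp (r d k i : ℕ) : Bool := (decide (i < d) && bit r k i) || decide (i = d + k)

/-- the parity checks -/
def Bk (r d m k : ℕ) : Finset (Fin m) := univ.filter fun v => Bp r d k v.val = true

theorem cnt_single {n k : ℕ} (hk : k < n) (Q : ℕ → Bool) :
    cnt (fun j => decide (j = k) && Q j) n = if Q k then 1 else 0 := by
  have h0 : ∀ n, n ≤ k → cnt (fun j => decide (j = k) && Q j) n = 0 := by
    intro n
    induction n with
    | zero => intro _; rfl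
    | succ n ih =>
      intro h
      rw [cnt_succ, ih (by omega)]
      have : decide (n = k) = false := decide_eq_false (by omega)
      simp [this]
  induction n with
  | zero => omega
  | succ n ih =>
    rw [cnt_succ]
    by_cases h : k = n
    · subst h
      rw [h0 k le_rfl]
      simp
    · rw [ih (by omega)]
      have : decide (n = k) = false := decide_eq_false (Ne.symm h)
      simp [this]

theorem prod_Bk {r d κ m : ℕ} (hm : m = d + κ) {k : ℕ} (hk : k < κ) (x : Fin m → Bool) :
    ∏ v ∈ Bk r d m k, sg (x v) =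
      sg (xor (par (cnt (fun i => ext x i && bit r k i) d)) (ext x (d + k))) := by
  have h1 : (Bk r d m k).filter (fun v => x v = true) =
      univ.filter fun v : Fin m => (Bp r d k v.val && ext x v.val) = true := by
    ext v
    simp [Bk, ext_fin]
  have e : cnt (fun i => Bp r d k i && ext x i) m = cnt (fun i => Bp r d k i && ext x i) (d + κ) :=
    congrArg (cnt _) hm
  rw [prod_sg, h1, card_fin (fun i => Bp r d k i && ext x i) m, e, cnt_add, par_add]
  congr 2
  · congr 1
    refine cnt_congr fun i hi => ?_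
    have h2 : Bp r d k i = bit r k i := by
      unfold Bp
      rw [decide_eq_true hi, decide_eq_false (show ¬ i = d + k by omega)]
      simp
    rw [h2, Bool.and_comm]
  · have h3 : cnt (fun i => Bp r d k (d + i) && ext x (d + i)) κ =
        cnt (fun j => decide (j = k) && ext x (d + j)) κ := by
      refine cnt_congr fun i _ => ?_
      have h4 : Bp r d k (d + i) = decide (i = k) := by
        unfold Bp
        rw [decide_eq_false (show ¬ d + i < d by omega)]
        simp
      rw [h4]
    rw [h3, cnt_single hk]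
    cases ext x (d + k) <;> simp [par]

theorem gen_length (m : ℕ) {s : List Bool} (hs : s.length = m - m / 3000) :
    (gen m s).length = m := by
  have : m / 3000 ≤ m := Nat.div_le_self _ _
  simp [gen, hs]
  omega

theorem gen_left (m : ℕ) (s : List Bool) {i : ℕ} (hi : i < s.length) :
    (gen m s).getD i false = s.getD i false := by
  unfold gen
  rw [List.getD_append _ _ _ _ hi]

theorem gen_right (m : ℕ) (s : List Bool) {k : ℕ} (hk : k < m / 3000) :
    (gen m s).getD (s.length + k) false =
      par (cnt (fun i => s.getD i false && bit (Nat.log 2 m) k i) s.length) := by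
  unfold gen
  rw [List.getD_append_right _ _ _ _ (by omega)]
  rw [Nat.add_sub_cancel_left]
  rw [List.getD_eq_getElem _ _ (by simpa using hk)]
  simp [cnt]

/-- the generator, as a map between cubes -/
def G (m : ℕ) (s : Fin (m - m / 3000) → Bool) : Fin m → Bool :=
  fun v => (gen m (List.ofFn s)).getD v.val false

theorem ofFn_G (m : ℕ) (s : Fin (m - m / 3000) → Bool) :
    List.ofFn (G m s) = gen m (List.ofFn s) := by
  have hl : (gen m (List.ofFn s)).length = m := gen_length m (by simp)
  apply List.ext_getElem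
  · simp [hl]
  · intro i h1 h2
    simp only [List.getElem_ofFn, G]
    rw [List.getD_eq_getElem _ _ h2]

theorem ofFn_getD {d : ℕ} (s : Fin d → Bool) (i : ℕ) : (List.ofFn s).getD i false = ext s i := by
  unfold ext
  split_ifs with h
  · rw [List.getD_eq_getElem _ _ (by simpa using h)]
    simp
  · rw [List.getD_eq_default _ _ (by simpa using h)]

theorem G_left {m : ℕ} (s : Fin (m - m / 3000) → Bool) {i : ℕ} (hi : i < m - m / 3000) :
    ext (G m s) i = ext s i := by
  have him : i < m := by omega
  have h : ext (G m s) i = (gen m (List.ofFn s)).getD i false := by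
    simp [ext, him, G]
  rw [h, gen_left m _ (by simpa using hi), ofFn_getD]

theorem G_right {m : ℕ} (s : Fin (m - m / 3000) → Bool) {k : ℕ} (hk : k < m / 3000) :
    ext (G m s) (m - m / 3000 + k) =
      par (cnt (fun i => ext s i && bit (Nat.log 2 m) k i) (m - m / 3000)) := by
  have hm : m - m / 3000 + k < m := by
    have : m / 3000 ≤ m := Nat.div_le_self _ _
    omega
  have h : ext (G m s) (m - m / 3000 + k) =
      (gen m (List.ofFn s)).getD (m - m / 3000 + k) false := by
    simp only [ext, hm, G, dif_pos]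
  have h1 := gen_right m (List.ofFn s) hk
  rw [List.length_ofFn] at h1
  rw [h, h1]
  congr 1
  exact cnt_congr fun i _ => by rw [ofFn_getD]

theorem G_inj (m : ℕ) : Function.Injective (G m) := by
  intro s t h
  funext i
  have h1 := G_left s i.isLt
  have h2 := G_left t i.isLt
  rw [h] at h1
  rw [h1] at h2
  rwa [ext_fin, ext_fin] at h2

theorem G_image (m : ℕ) (x : Fin m → Bool) : (∃ s, G m s = x) ↔
    ∀ k : Fin (m / 3000), ∏ v ∈ Bk (Nat.log 2 m) (m - m / 3000) m k.val, sg (x v) = 1 := by
  have hm : m = (m - m / 3000) + m / 3000 := by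
    have : m / 3000 ≤ m := Nat.div_le_self _ _
    omega
  have key : ∀ k : Fin (m / 3000),
      (∏ v ∈ Bk (Nat.log 2 m) (m - m / 3000) m k.val, sg (x v) = 1 ↔
        ext x (m - m / 3000 + k.val) =
          par (cnt (fun i => ext x i && bit (Nat.log 2 m) k i) (m - m / 3000))) := by
    intro k
    rw [prod_Bk hm k.isLt, sg_eq_one]
    generalize par (cnt (fun i => ext x i && bit (Nat.log 2 m) k i) (m - m / 3000)) = a
    generalize ext x (m - m / 3000 + k.val) = b
    cases a <;> cases b <;> simp
  constructor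
  · rintro ⟨s, rfl⟩ k
    rw [key, G_right s k.isLt]
    congr 1
    exact cnt_congr fun i hi => by rw [G_left s hi]
  · intro h
    let s : Fin (m - m / 3000) → Bool := fun i => ext x i.val
    have hs : ∀ i < m - m / 3000, ext s i = ext x i := by
      intro i hi
      simp only [ext, hi, dif_pos, s]
    refine ⟨s, ?_⟩
    funext v
    rw [← ext_fin (G m s) v, ← ext_fin x v]
    by_cases hv : v.val < m - m / 3000
    · rw [G_left s hv, hs _ hv]
    · have hk : v.val - (m - m / 3000) < m / 3000 := by
        have := v.isLt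
        omega
      have e : v.val = m - m / 3000 + (v.val - (m - m / 3000)) := by omega
      have h2 := (key ⟨_, hk⟩).mp (h ⟨_, hk⟩)
      simp only at h2
      rw [e, G_right s hk, h2]
      congr 1
      exact cnt_congr fun i hi => by rw [hs i hi]

/-- the weight of the sums of the parity checks -/
theorem wt_ge {r d κ m : ℕ} (hr : 0 < r) (hm : m = d + κ) {M : ℕ} (hM : M ≤ (fam r).length)
    (hd : 60 * r * M ≤ d) (T : Finset (Fin κ)) (hT : T.Nonempty) :
    25 * r * M ≤ (wt (fun k : Fin κ => Bk r d m k.val) T).card + 25 * κ := by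
  classical
  set T' : Finset ℕ := T.map Fin.valEmbedding with hT'
  have h1 : T' ⊆ range κ := by
    intro k hk
    rw [hT', mem_map] at hk
    obtain ⟨j, -, rfl⟩ := hk
    exact mem_range.mpr j.isLt
  have h2 : T'.Nonempty := hT.map
  have h3 := dist_bound hr hM hd h1 h2
  have h4 : cnt (tbit r T') d ≤ (wt (fun k : Fin κ => Bk r d m k.val) T).card := by
    have h5 : (univ.filter fun v : Fin m => (decide (v.val < d) && tbit r T' v.val) = true) ⊆
        wt (fun k : Fin κ => Bk r d m k.val) T := by
      intro v hv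
      rw [mem_filter, Bool.and_eq_true, decide_eq_true_eq] at hv
      unfold wt
      rw [mem_filter]
      refine ⟨mem_univ v, ?_⟩
      have h6 : (T.filter fun k : Fin κ => v ∈ Bk r d m k.val).card =
          (T'.filter fun k => bit r k v.val = true).card := by
        rw [hT', filter_map, card_map]
        congr 1
        ext k
        simp only [mem_filter, Function.comp]
        refine and_congr_right fun _ => ?_
        unfold Bk
        rw [mem_filter]
        unfold Bp
        rw [decide_eq_true hv.2.1, decide_eq_false (show ¬ v.val = d + k.val by omega)]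
        simp
      rw [h6, Nat.odd_iff]
      have h7 := hv.2.2
      unfold tbit par at h7
      exact of_decide_eq_true h7
    have h8 := card_le_card h5
    rw [card_fin (fun i => decide (i < d) && tbit r T' i) m] at h8
    refine le_trans ?_ h8
    have h9 : cnt (tbit r T') d = cnt (fun i => decide (i < d) && tbit r T' i) d :=
      cnt_congr fun i hi => by simp [hi]
    rw [h9]
    exact cnt_mono _ (by omega)
  omega

/-! ### Arithmetic -/

theorem pow_ge {r : ℕ} (hr : 25 ≤ r) : 1000000 * r ≤ 2 ^ r := by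
  induction r, hr using Nat.le_induction with
  | base => norm_num
  | succ r hr ih => rw [pow_succ]; omega

theorem pow_ge' {h : ℕ} (hh : 12 ≤ h) : 60 * (2 * h + 1) ≤ 29 * 2 ^ h := by
  induction h, hh using Nat.le_induction with
  | base => norm_num
  | succ r hr ih => rw [pow_succ]; omega

theorem enough {m : ℕ} (hm : 2 ^ 25 ≤ m) :
    (m - m / 3000) / (60 * Nat.log 2 m) ≤ (fam (Nat.log 2 m)).length := by
  set r := Nat.log 2 m with hr
  have hr25 : 25 ≤ r := by
    rw [hr]
    exact Nat.le_log_of_pow_le (by norm_num) hm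
  have h1 : m < 2 ^ (r + 1) := Nat.lt_pow_succ_log_self (by norm_num) m
  have h2 := card_fam (r := r) (by omega)
  set M := (m - m / 3000) / (60 * r) with hM
  have h3 : 60 * r * M ≤ m := (Nat.mul_div_le _ _).trans (Nat.sub_le _ _)
  have h4 : 30 * (r * 2 ^ (r / 2 + 1)) ≤ 29 * 2 ^ r := by
    have h5 := pow_ge' (h := r / 2) (by omega)
    have h6 : 2 ^ (r / 2) * 2 ^ (r / 2) ≤ 2 ^ r := by
      rw [← pow_add]
      exact Nat.pow_le_pow_right (by norm_num) (by omega)
    have h7 : r ≤ 2 * (r / 2) + 1 := by omega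
    calc 30 * (r * 2 ^ (r / 2 + 1)) = 60 * r * 2 ^ (r / 2) := by rw [pow_succ]; ring
      _ ≤ 60 * (2 * (r / 2) + 1) * 2 ^ (r / 2) := by gcongr
      _ ≤ 29 * 2 ^ (r / 2) * 2 ^ (r / 2) := Nat.mul_le_mul_right _ h5
      _ = 29 * (2 ^ (r / 2) * 2 ^ (r / 2)) := by ring
      _ ≤ 29 * 2 ^ r := Nat.mul_le_mul_left _ h6
  by_contra hcon
  push Not at hcon
  have h8 : r * (fam r).length ≤ r * M := Nat.mul_le_mul_left _ hcon.le
  rw [mul_add] at h2
  have h9 : 2 ^ (r + 1) = 2 * 2 ^ r := by rw [pow_succ]; ring
  have h10 : 60 * r * M = 60 * (r * M) := by ring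
  omega

theorem weights {m : ℕ} (hm : 2 ^ 25 ≤ m) :
    140 * (m / 343 + 1) + 2 + 25 * (m / 3000) ≤
      25 * Nat.log 2 m * ((m - m / 3000) / (60 * Nat.log 2 m)) := by
  set r := Nat.log 2 m with hr
  have hr25 : 25 ≤ r := by
    rw [hr]
    exact Nat.le_log_of_pow_le (by norm_num) hm
  have h1 : 2 ^ r ≤ m := Nat.pow_log_le_self 2 (by omega)
  have h2 := pow_ge hr25
  have h3 : m - m / 3000 < 60 * r * ((m - m / 3000) / (60 * r)) + 60 * r := by
    have := Nat.lt_mul_div_succ (m - m / 3000) (show 0 < 60 * r by omega)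
    rw [Nat.mul_add, mul_one] at this
    exact this
  have e1 : 25 * r * ((m - m / 3000) / (60 * r)) = 25 * (r * ((m - m / 3000) / (60 * r))) := by ring
  have e2 : 60 * r * ((m - m / 3000) / (60 * r)) = 60 * (r * ((m - m / 3000) / (60 * r))) := by ring
  rw [e1]
  rw [e2] at h3
  generalize r * ((m - m / 3000) / (60 * r)) = z at *
  norm_num at hm
  omega

theorem num_bound : ((6 : ℝ) / 5) ^ 343 * ((1 + 6 / 5) / (2 * (6 / 5) ^ 3)) ^ 140 ≤ 1 / 2 := by
  have h1 : ((6 : ℝ) / 5) ^ 49 * ((1 + 6 / 5) / (2 * (6 / 5) ^ 3)) ^ 20 ≤ 9055 / 10000 := by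
    norm_num
  have h2 : ((6 : ℝ) / 5) ^ 343 * ((1 + 6 / 5) / (2 * (6 / 5) ^ 3)) ^ 140 =
      (((6 : ℝ) / 5) ^ 49 * ((1 + 6 / 5) / (2 * (6 / 5) ^ 3)) ^ 20) ^ 7 := by
    rw [mul_pow, ← pow_mul, ← pow_mul]
  rw [h2]
  refine (pow_le_pow_left₀ (by positivity) h1 7).trans ?_
  norm_num

theorem num_final {m w : ℕ} (hw : 140 * (m / 343 + 1) + 2 ≤ w) :
    (2 : ℝ) ^ (m / 3000) * ((6 / 5) ^ m * ((1 + 6 / 5) / (2 * (6 / 5) ^ 3)) ^ (w - 2)) ≤
      (1 / 2) ^ (m / 1000) := by
  obtain ⟨hD0, hD1, -⟩ := num (A := 6 / 5) (by norm_num) (by norm_num)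
  have hnb := num_bound
  set D : ℝ := (1 + 6 / 5) / (2 * (6 / 5) ^ 3) with hD
  set q := m / 343 with hq
  have h1 : (6 / 5 : ℝ) ^ m ≤ (6 / 5) ^ (343 * (q + 1)) :=
    pow_le_pow_right₀ (by norm_num) (by omega)
  have h2 : D ^ (w - 2) ≤ D ^ (140 * (q + 1)) := pow_le_pow_of_le_one hD0.le hD1 (by omega)
  have h3 : (6 / 5 : ℝ) ^ m * D ^ (w - 2) ≤ (1 / 2) ^ (q + 1) := by
    calc (6 / 5 : ℝ) ^ m * D ^ (w - 2)
        ≤ (6 / 5) ^ (343 * (q + 1)) * D ^ (140 * (q + 1)) := by
          apply mul_le_mul h1 h2 (by positivity) (by positivity)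
      _ = ((6 / 5) ^ 343 * D ^ 140) ^ (q + 1) := by rw [pow_mul, pow_mul, ← mul_pow]
      _ ≤ (1 / 2) ^ (q + 1) := pow_le_pow_left₀ (by positivity) hnb _
  have h4 : q + 1 = m / 3000 + (q + 1 - m / 3000) := by omega
  have h5 : (2 : ℝ) ^ (m / 3000) * (1 / 2) ^ (q + 1) = (1 / 2) ^ (q + 1 - m / 3000) := by
    rw [h4, pow_add, ← mul_assoc, ← mul_pow]
    norm_num
  calc (2 : ℝ) ^ (m / 3000) * ((6 / 5) ^ m * D ^ (w - 2))
      ≤ 2 ^ (m / 3000) * (1 / 2) ^ (q + 1) := by gcongr
    _ = (1 / 2) ^ (q + 1 - m / 3000) := h5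
    _ ≤ (1 / 2) ^ (m / 1000) := pow_le_pow_of_le_one (by norm_num) (by norm_num) (by omega)

/-- The probability of the event `p` for a uniform element of a finite set. -/
noncomputable def prob {S : Type} [Fintype S] (p : S → Bool) : ℝ :=
  (univ.filter fun s => p s = true).card / Fintype.card S

theorem sum_sg {S : Type} [Fintype S] (p : S → Bool) (hS : 0 < Fintype.card S) :
    (∑ s, sg (p s)) / Fintype.card S = 1 - 2 * prob p := by
  have h1 : ∀ s, sg (p s) = 1 - 2 * (if p s = true then 1 else 0) := by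
    intro s
    cases p s <;> simp [sg]
    norm_num
  have h2 : ∑ s, sg (p s) = Fintype.card S - 2 * (univ.filter fun s => p s = true).card := by
    rw [sum_congr rfl fun s _ => h1 s, sum_sub_distrib, ← mul_sum, sum_boole]
    simp
  rw [h2]
  unfold prob
  have : (Fintype.card S : ℝ) ≠ 0 := by exact_mod_cast hS.ne'
  field_simp

/-- **The generator fools all circuits with at most `m` AND and OR gates.** -/
theorem fools {m : ℕ} (hm : 2 ^ 25 ≤ m) (C : Circuit m) (hC : C.size ≤ m) :
    |prob (fun s => C.eval (G m s)) - prob C.eval| ≤ (1 / 2) ^ (m / 1000) := by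
  have hmd : m = (m - m / 3000) + m / 3000 := by
    have : m / 3000 ≤ m := Nat.div_le_self _ _
    omega
  have hr : 0 < Nat.log 2 m := Nat.log_pos (by norm_num) (by omega)
  set E : ℝ := (6 / 5) ^ m *
    ((1 + 6 / 5) / (2 * (6 / 5) ^ 3)) ^ (140 * (m / 343 + 1) + 2 - 2) with hE
  obtain ⟨hD0, hD1, -⟩ := num (A := 6 / 5) (by norm_num) (by norm_num)
  have hcr : ∀ T : Finset (Fin (m / 3000)), T.Nonempty →
      |cr (wt (fun k : Fin (m / 3000) => Bk (Nat.log 2 m) (m - m / 3000) m k.val) T) C.eval| ≤
        2 ^ Fintype.card (Fin m) * E := by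
    intro T hT
    have h1 := wt_ge hr hmd (enough hm) (Nat.mul_div_le _ _) T hT
    have h2 := weights hm
    refine (corr_circ (A := 6 / 5) (by norm_num) (by norm_num) C m hC _).trans ?_
    rw [Fintype.card_fin]
    apply mul_le_mul_of_nonneg_left _ (by positivity)
    apply mul_le_mul_of_nonneg_left _ (by positivity)
    exact pow_le_pow_of_le_one hD0.le hD1 (by omega)
  have h := gen_bound (G m) (G_inj m)
    (fun k : Fin (m / 3000) => Bk (Nat.log 2 m) (m - m / 3000) m k.val) (G_image m) (by
      simp only [Fintype.card_fun, Fintype.card_bool, Fintype.card_fin]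
      rw [← pow_add]
      congr 1
      omega) C.eval E hcr (by positivity)
  have h1 := sum_sg (fun s => C.eval (G m s)) (Fintype.card_pos)
  have h2 := sum_sg C.eval (Fintype.card_pos)
  have h3 : (Fintype.card (Fin m → Bool) : ℝ) = 2 ^ Fintype.card (Fin m) := by
    simp
  rw [h3] at h2
  rw [h1, h2, Fintype.card_fin] at h
  have h4 := num_final (m := m) (w := 140 * (m / 343 + 1) + 2) le_rfl
  rw [← hE] at h4
  have h5 : |prob (fun s => C.eval (G m s)) - prob C.eval| * 2 =
      |1 - 2 * prob (fun s => C.eval (G m s)) - (1 - 2 * prob C.eval)| := by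
    rw [← abs_two, ← abs_mul, abs_two, ← abs_neg]
    congr 1
    ring
  have h6 := abs_nonneg (prob (fun s => C.eval (G m s)) - prob C.eval)
  linarith

end Pool.Agent.W2helper86.LG
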