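import Mathlib

/-!
# Bit lists as polynomials over the field with two elements

A list of bits is read as the list of coefficients of a polynomial over `ZMod 2` (constant
coefficient first). `pw c e` is the remainder of `X ^ e` modulo the monic polynomial `mon c` whose
lower coefficients are the bits of `c`; it is computed by `e` steps of a linear feedback shift
register.
-/

set_option autoImplicit false

namespace Pool.Agent.W2helper86.LG

open Polynomial

/-- a bit as an element of the field with two elements -/
def bz (b : Bool) : ZMod 2 := if b then 1 else 0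

theorem bz_xor (a b : Bool) : bz (xor a b) = bz a + bz b := by
  cases a <;> cases b <;> decide

theorem bz_and (a b : Bool) : bz (a && b) = bz a * bz b := by
  cases a <;> cases b <;> decide

theorem bz_inj {a b : Bool} (h : bz a = bz b) : a = b := by
  revert h
  cases a <;> cases b <;> decide

theorem exists_bz (z : ZMod 2) : ∃ b, bz b = z := by
  fin_cases z
  · exact ⟨false, rfl⟩
  · exact ⟨true, rfl⟩

/-- the polynomial with the given coefficients -/
noncomputable def val : List Bool → (ZMod 2)[X]
  | [] => 0
  | b :: l => C (bz b) + X * val l

@[simp] theorem val_nil : val [] = 0 := rfl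
@[simp] theorem val_cons (b : Bool) (l : List Bool) : val (b :: l) = C (bz b) + X * val l := rfl

theorem val_append (l l' : List Bool) : val (l ++ l') = val l + X ^ l.length * val l' := by
  induction l with
  | nil => simp
  | cons b l ih => simp [ih, pow_succ]; ring

theorem val_replicate (n : ℕ) : val (List.replicate n false) = 0 := by
  induction n with
  | zero => rfl
  | succ n ih => simp [List.replicate_succ, ih, bz]

theorem val_zip (t : Bool) : ∀ {l l' : List Bool}, l.length = l'.length →
    val (List.zipWith (fun a b => xor a (b && t)) l l') = val l + C (bz t) * val l' := by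
  intro l
  induction l with
  | nil =>
    intro l' h
    have : l' = [] := List.length_eq_zero_iff.mp h.symm
    subst this
    simp
  | cons a l ih =>
    intro l' h
    cases l' with
    | nil => simp at h
    | cons b l' =>
      simp only [List.length_cons, Nat.add_right_cancel_iff] at h
      simp only [List.zipWith_cons_cons, val_cons, ih h, bz_xor, bz_and, C_add, C_mul]
      ring

theorem val_xor {l l' : List Bool} (h : l.length = l'.length) :
    val (List.zipWith xor l l') = val l + val l' := by
  have := val_zip true h
  simpa [bz] using this

theorem val_coeff (l : List Bool) (i : ℕ) : (val l).coeff i = bz (l.getD i false) := by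
  induction l generalizing i with
  | nil => simp [bz]
  | cons b l ih =>
    cases i with
    | zero => simp
    | succ i => simp [ih]

theorem val_degree (l : List Bool) : (val l).degree < l.length := by
  rw [degree_lt_iff_coeff_zero]
  intro i hi
  rw [val_coeff, List.getD_eq_default _ _ hi]
  rfl

theorem val_inj {l l' : List Bool} (h : l.length = l'.length) (hv : val l = val l') : l = l' := by
  apply List.ext_getElem h
  intro i h1 h2
  have := congrArg (fun p => p.coeff i) hv
  simp only [val_coeff] at this
  have := bz_inj this
  rwa [List.getD_eq_getElem _ _ h1, List.getD_eq_getElem _ _ h2] at this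

theorem exists_val (n : ℕ) (p : (ZMod 2)[X]) (hp : p.degree < n) :
    ∃ l : List Bool, l.length = n ∧ val l = p := by
  classical
  choose f hf using exists_bz
  refine ⟨List.ofFn (fun i : Fin n => f (p.coeff i)), by simp, ?_⟩
  ext i
  rw [val_coeff]
  by_cases hi : i < n
  · rw [List.getD_eq_getElem _ _ (by simpa using hi)]
    simp [hf]
  · rw [List.getD_eq_default _ _ (by simpa using hi)]
    rw [degree_lt_iff_coeff_zero] at hp
    rw [hp i (by omega)]
    rfl

theorem val_eq_sum (l : List Bool) :
    val l = ∑ i ∈ Finset.range l.length, if l.getD i false then X ^ i else 0 := by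
  ext j
  rw [val_coeff, finsetSum_coeff]
  by_cases hj : j < l.length
  · rw [Finset.sum_eq_single j]
    · cases h : l.getD j false <;> simp [bz]
    · intro i _ hij
      split_ifs
      · rw [coeff_X_pow, if_neg (Ne.symm hij)]
      · simp
    · intro h
      exact absurd (Finset.mem_range.mpr hj) h
  · rw [List.getD_eq_default _ _ (by omega), Finset.sum_eq_zero]
    · rfl
    · intro i hi
      have := Finset.mem_range.mp hi
      split_ifs
      · rw [coeff_X_pow, if_neg (by omega)]
      · simp

/-- the monic polynomial with the given lower coefficients -/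
noncomputable def mon (c : List Bool) : (ZMod 2)[X] := X ^ c.length + val c

theorem mon_monic (c : List Bool) : (mon c).Monic := monic_X_pow_add (val_degree c)

theorem natDegree_mon (c : List Bool) : (mon c).natDegree = c.length := by
  have h : (mon c).degree = c.length := by
    unfold mon
    rw [degree_add_eq_left_of_degree_lt (by rw [degree_X_pow]; exact val_degree c), degree_X_pow]
  exact natDegree_eq_of_degree_eq_some h

theorem mon_inj {c c' : List Bool} (h : mon c = mon c') : c = c' := by
  have h1 : c.length = c'.length := by rw [← natDegree_mon, h, natDegree_mon]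
  refine val_inj h1 ?_
  unfold mon at h
  rw [h1] at h
  exact add_left_cancel h

theorem exists_mon (p : (ZMod 2)[X]) (hp : p.Monic) : ∃ c, c.length = p.natDegree ∧ mon c = p := by
  obtain ⟨c, h1, h2⟩ := exists_val p.natDegree (p - X ^ p.natDegree) (by
    have h := degree_sub_lt (p := p) (q := X ^ p.natDegree)
      (by rw [degree_X_pow, degree_eq_natDegree hp.ne_zero]) hp.ne_zero
      (by rw [hp.leadingCoeff, leadingCoeff_X_pow])
    rwa [degree_eq_natDegree hp.ne_zero] at h)
  refine ⟨c, h1, ?_⟩
  rw [mon, h1, h2]
  ring

/-- one step of the shift register with feedback polynomial `mon c` -/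
def step (c y : List Bool) : List Bool :=
  List.zipWith (fun a b => xor a (b && y.getLast?.getD false)) (false :: y) c

theorem length_step {c y : List Bool} (h : y.length = c.length) :
    (step c y).length = c.length := by
  simp [step, h]

theorem zip_drop (f : Bool → Bool → Bool) (t : Bool) : ∀ {u c : List Bool}, u.length = c.length →
    List.zipWith f (u ++ [t]) c = List.zipWith f u c := by
  intro u
  induction u with
  | nil =>
    intro c h
    have : c = [] := List.length_eq_zero_iff.mp h.symm
    subst this
    simp
  | cons a u ih =>
    intro c h
    cases c with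
    | nil => simp at h
    | cons b c =>
      simp only [List.length_cons, Nat.add_right_cancel_iff] at h
      simp [ih h]

theorem val_step {c y : List Bool} (h : y.length = c.length) (hc : c ≠ []) :
    val (step c y) + C (bz (y.getLast?.getD false)) * mon c = X * val y := by
  have hy : y ≠ [] := by
    rintro rfl
    exact hc (List.length_eq_zero_iff.mp h.symm)
  obtain ⟨y', t, rfl⟩ : ∃ y' t, y = y' ++ [t] :=
    ⟨y.dropLast, y.getLast hy, (List.dropLast_append_getLast hy).symm⟩
  have ht : (y' ++ [t]).getLast?.getD false = t := by simp
  unfold step
  rw [ht]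
  rw [← List.cons_append, zip_drop _ _ (by simpa using h), val_zip t (by simpa using h)]
  unfold mon
  rw [val_append, val_cons]
  have hl : c.length = y'.length + 1 := by simpa using h.symm
  rw [hl]
  have h2 : C (bz t) * val c + C (bz t) * val c = 0 := CharTwo.add_self_eq_zero _
  have h0 : bz false = 0 := rfl
  simp only [h0, C_0, val_cons, val_nil, mul_zero, add_zero]
  linear_combination h2

/-- the remainder of `X ^ e` modulo `mon c` -/
def pw (c : List Bool) (e : ℕ) : List Bool :=
  (step c)^[e] (true :: List.replicate (c.length - 1) false)

theorem length_pw {c : List Bool} (hc : c ≠ []) (e : ℕ) : (pw c e).length = c.length := by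
  have h0 : 0 < c.length := List.length_pos_iff.mpr hc
  induction e with
  | zero => simp [pw]; omega
  | succ e ih =>
    unfold pw at ih ⊢
    rw [Function.iterate_succ_apply']
    exact length_step ih

theorem dvd_pw {c : List Bool} (hc : c ≠ []) (e : ℕ) : mon c ∣ X ^ e + val (pw c e) := by
  induction e with
  | zero =>
    have : X ^ 0 + val (pw c 0) = 0 := by
      simp only [pow_zero, pw, Function.iterate_zero, id, val_cons, val_replicate, mul_zero,
        add_zero]
      exact CharTwo.add_self_eq_zero _
    rw [this]
    exact dvd_zero _
  | succ e ih =>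
    have h1 : pw c (e + 1) = step c (pw c e) := by
      unfold pw
      rw [Function.iterate_succ_apply']
    have h2 := val_step (length_pw hc e) hc
    rw [h1]
    obtain ⟨q, hq⟩ := ih
    refine ⟨X * q + C (bz ((pw c e).getLast?.getD false)), ?_⟩
    have h4 : C (bz ((pw c e).getLast?.getD false)) * mon c +
      C (bz ((pw c e).getLast?.getD false)) * mon c = 0 := CharTwo.add_self_eq_zero _
    linear_combination X * hq + h2 - h4

/-- the sum of bit lists of length `k` -/
def combo (k : ℕ) (L : List (List Bool)) : List Bool :=
  L.foldl (List.zipWith xor) (List.replicate k false)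

theorem combo_aux (k : ℕ) : ∀ (L : List (List Bool)), (∀ l ∈ L, l.length = k) →
    ∀ s : List Bool, s.length = k → (L.foldl (List.zipWith xor) s).length = k ∧
      val (L.foldl (List.zipWith xor) s) = val s + (L.map val).sum := by
  intro L
  induction L with
  | nil => intro _ s hs; simp [hs]
  | cons l L ih =>
    intro hL s hs
    have hl : l.length = k := hL l List.mem_cons_self
    have h1 : (List.zipWith xor s l).length = k := by simp [hs, hl]
    obtain ⟨h2, h3⟩ := ih (fun l' hl' => hL l' (List.mem_cons_of_mem _ hl')) _ h1
    refine ⟨h2, ?_⟩
    rw [List.foldl_cons, h3, val_xor (hs.trans hl.symm), List.map_cons, List.sum_cons, add_assoc]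

theorem length_combo {k : ℕ} {L : List (List Bool)} (hL : ∀ l ∈ L, l.length = k) :
    (combo k L).length = k := (combo_aux k L hL _ (by simp)).1

theorem val_combo {k : ℕ} {L : List (List Bool)} (hL : ∀ l ∈ L, l.length = k) :
    val (combo k L) = (L.map val).sum := by
  have := (combo_aux k L hL (List.replicate k false) (by simp)).2
  rw [val_replicate, zero_add] at this
  exact this

/-- the remainder of the sum of the `X ^ e`, `e ∈ T`, modulo `mon c` -/
def sumPw (c : List Bool) (T : List ℕ) : List Bool := combo c.length (T.map (pw c))

theorem length_sumPw {c : List Bool} (hc : c ≠ []) (T : List ℕ) :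
    (sumPw c T).length = c.length := by
  refine length_combo fun l hl => ?_
  obtain ⟨e, _, rfl⟩ := List.mem_map.mp hl
  exact length_pw hc e

theorem dvd_sumPw {c : List Bool} (hc : c ≠ []) (T : List ℕ) :
    mon c ∣ (T.map (fun e => (X : (ZMod 2)[X]) ^ e)).sum + val (sumPw c T) := by
  have h : val (sumPw c T) = (T.map (fun e => val (pw c e))).sum := by
    unfold sumPw
    rw [val_combo (fun l hl => by
      obtain ⟨e, _, rfl⟩ := List.mem_map.mp hl
      exact length_pw hc e), List.map_map]
    rfl
  rw [h]
  clear h
  induction T with
  | nil => simp
  | cons e T ih =>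
    rw [List.map_cons, List.sum_cons, List.map_cons, List.sum_cons]
    have := dvd_add (dvd_pw hc e) ih
    convert this using 1
    ring

theorem any_false_iff (l : List Bool) : l.any id = false ↔ val l = 0 := by
  constructor
  · intro h
    have : l = List.replicate l.length false := by
      apply List.eq_replicate_iff.mpr
      refine ⟨rfl, fun b hb => ?_⟩
      cases b
      · rfl
      · rw [List.any_eq_false] at h
        exact absurd rfl (h true hb)
    rw [this, val_replicate]
  · intro h
    rw [List.any_eq_false]
    intro b hb hbt
    obtain ⟨i, hi, rfl⟩ := List.mem_iff_getElem.mp hb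
    have h2 := congrArg (fun p => p.coeff i) h
    simp only [val_coeff, coeff_zero] at h2
    rw [List.getD_eq_getElem _ _ hi] at h2
    simp only [id] at hbt
    rw [hbt] at h2
    exact absurd h2 (by decide)

theorem sumPw_zero {c : List Bool} (hc : c ≠ []) (T : List ℕ) :
    (sumPw c T).any id = false ↔ mon c ∣ (T.map (fun e => (X : (ZMod 2)[X]) ^ e)).sum := by
  rw [any_false_iff]
  have h1 := dvd_sumPw hc T
  constructor
  · intro h
    rwa [h, add_zero] at h1
  · intro h
    have h2 : mon c ∣ val (sumPw c T) := (dvd_add_right h).mp h1
    by_contra hne
    have h3 := degree_le_of_dvd h2 hne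
    have h4 := val_degree (sumPw c T)
    rw [length_sumPw hc] at h4
    rw [degree_eq_natDegree (mon_monic c).ne_zero, natDegree_mon] at h3
    exact absurd (lt_of_le_of_lt h3 h4) (lt_irrefl _)

/-- the exponents of the monomials of `mon c` -/
def exps (c : List Bool) : List ℕ :=
  (List.range (c.length + 1)).filter fun i => (c ++ [true]).getD i false

theorem sum_filter_range (n : ℕ) (p : ℕ → Bool) (f : ℕ → (ZMod 2)[X]) :
    (((List.range n).filter p).map f).sum = ∑ i ∈ Finset.range n, if p i then f i else 0 := by
  induction n with
  | zero => simp
  | succ n ih =>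
    rw [List.range_succ, List.filter_append, List.map_append, List.sum_append, ih,
      Finset.sum_range_succ]
    congr 1
    cases h : p n <;> simp [h]

theorem exps_sum (c : List Bool) :
    ((exps c).map (fun e => (X : (ZMod 2)[X]) ^ e)).sum = mon c := by
  unfold exps
  rw [sum_filter_range]
  have h := val_eq_sum (c ++ [true])
  rw [List.length_append, List.length_singleton] at h
  rw [← h, val_append, mon]
  simp [bz]
  ring

/-- all bit lists of length `n` -/
def allL : ℕ → List (List Bool)
  | 0 => [[]]
  | n + 1 => (allL n).flatMap fun l => [false :: l, true :: l]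

theorem mem_allL {n : ℕ} {l : List Bool} : l ∈ allL n ↔ l.length = n := by
  induction n generalizing l with
  | zero => simp [allL]
  | succ n ih =>
    simp only [allL, List.mem_flatMap, List.mem_cons, List.not_mem_nil, or_false]
    constructor
    · rintro ⟨l', h, rfl | rfl⟩ <;> simp [ih.mp h]
    · intro h
      cases l with
      | nil => simp at h
      | cons b l =>
        simp only [List.length_cons, Nat.add_right_cancel_iff] at h
        refine ⟨l, ih.mpr h, ?_⟩
        cases b <;> simp

theorem length_allL (n : ℕ) : (allL n).length = 2 ^ n := by
  induction n with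
  | zero => simp [allL]
  | succ n ih =>
    have : ∀ L : List (List Bool),
        (L.flatMap fun l => [false :: l, true :: l]).length = 2 * L.length := by
      intro L
      induction L with
      | nil => simp
      | cons l L ih => rw [List.flatMap_cons, List.length_append, ih]; simp; omega
    rw [allL, this, ih, pow_succ]
    ring

theorem nodup_allL (n : ℕ) : (allL n).Nodup := by
  induction n with
  | zero => simp [allL]
  | succ n ih =>
    rw [allL]
    have : ∀ L : List (List Bool), L.Nodup →
        (L.flatMap fun l => [false :: l, true :: l]).Nodup := by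
      intro L
      induction L with
      | nil => simp
      | cons l L ih =>
        intro h
        rw [List.nodup_cons] at h
        rw [List.flatMap_cons, List.nodup_append]
        refine ⟨by simp, ih h.2, ?_⟩
        intro a ha b hb
        rw [List.mem_flatMap] at hb
        obtain ⟨l', hl', hb⟩ := hb
        simp only [List.mem_cons, List.not_mem_nil, or_false] at ha hb
        rintro rfl
        rcases ha with rfl | rfl <;> rcases hb with hb | hb <;>
          simp only [List.cons.injEq, true_and, reduceCtorEq, false_and] at hb <;>
          exact h.1 (hb ▸ hl')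
    exact this _ ih

/-- The irreducibility test: no monic polynomial of smaller positive degree divides `mon c`. -/
def irr (r : ℕ) (c : List Bool) : Bool :=
  (List.range c.length).all fun k => decide (k = 0) ||
    (allL (min k r)).all fun g => (sumPw g (exps c)).any id

theorem irr_iff {r : ℕ} {c : List Bool} (hc : c ≠ []) (hr : c.length ≤ r) :
    irr r c = true ↔ Irreducible (mon c) := by
  have h0 : 0 < c.length := List.length_pos_iff.mpr hc
  have h1 : irr r c = true ↔ ∀ g : List Bool, g ≠ [] → g.length < c.length → ¬ mon g ∣ mon c := by
    unfold irr
    rw [List.all_eq_true]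
    constructor
    · intro h g hg hgl hd
      have h2 := h g.length (List.mem_range.mpr hgl)
      simp only [Bool.or_eq_true, decide_eq_true_eq, List.length_eq_zero_iff, hg, false_or,
        List.all_eq_true] at h2
      have h3 := h2 g (mem_allL.mpr (by omega))
      have h4 := (sumPw_zero hg (exps c)).mpr (by rw [exps_sum]; exact hd)
      rw [h3] at h4
      exact absurd h4 (by decide)
    · intro h k hk
      rw [List.mem_range] at hk
      simp only [Bool.or_eq_true, decide_eq_true_eq, List.all_eq_true]
      by_cases hk0 : k = 0
      · exact Or.inl hk0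
      · right
        intro g hg
        rw [mem_allL, min_eq_left (by omega)] at hg
        have hg0 : g ≠ [] := by
          rintro rfl
          exact hk0 hg.symm
        by_contra hcon
        rw [Bool.not_eq_true, sumPw_zero hg0, exps_sum] at hcon
        exact h g hg0 (by omega) hcon
  rw [h1]
  constructor
  · intro h
    rw [Monic.irreducible_iff_lt_natDegree_lt (mon_monic c) (by
      intro h2
      have := natDegree_mon c
      rw [h2, natDegree_one] at this
      omega)]
    intro q hq hdeg hd
    rw [Finset.mem_Ioc, natDegree_mon] at hdeg
    obtain ⟨g, hg1, rfl⟩ := exists_mon q hq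
    refine h g ?_ (by omega) hd
    rintro rfl
    simp at hg1
    omega
  · intro hirr g hg hgl hd
    obtain ⟨q, hq⟩ := hd
    have hgp : 0 < g.length := List.length_pos_iff.mpr hg
    rcases hirr.isUnit_or_isUnit hq with hu | hu
    · have := natDegree_eq_zero_of_isUnit hu
      rw [natDegree_mon] at this
      omega
    · have h3 := natDegree_eq_zero_of_isUnit hu
      have h4 : (mon c).natDegree = (mon g).natDegree + q.natDegree := by
        rw [hq]
        refine natDegree_mul (mon_monic g).ne_zero ?_
        rintro rfl
        exact not_isUnit_zero hu
      rw [natDegree_mon, natDegree_mon, h3] at h4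
      omega

/-- the irreducible polynomials of degree `r` -/
def fam (r : ℕ) : List (List Bool) := (allL r).filter (irr r)

theorem mem_fam {r : ℕ} (hr : 0 < r) {c : List Bool} :
    c ∈ fam r ↔ c.length = r ∧ Irreducible (mon c) := by
  unfold fam
  rw [List.mem_filter, mem_allL]
  constructor
  · rintro ⟨h1, h2⟩
    have hc : c ≠ [] := by
      rintro rfl
      simp at h1
      omega
    exact ⟨h1, (irr_iff hc h1.le).mp h2⟩
  · rintro ⟨h1, h2⟩
    have hc : c ≠ [] := by
      rintro rfl
      simp at h1
      omega
    exact ⟨h1, (irr_iff hc h1.le).mpr h2⟩

theorem nodup_fam (r : ℕ) : (fam r).Nodup := (nodup_allL r).filter _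

/-- The number of irreducible polynomials of degree `r`. -/
theorem card_fam {r : ℕ} (hr : 0 < r) : 2 ^ r ≤ r * ((fam r).length + 2 ^ (r / 2 + 1)) := by
  classical
  let K := GaloisField 2 r
  have hfin : Module.finrank (ZMod 2) K = r := GaloisField.finrank 2 hr.ne'
  have : Fintype K := Fintype.ofFinite K
  have hcard : Fintype.card K = 2 ^ r := by
    rw [← Nat.card_eq_fintype_card]
    exact GaloisField.card 2 r hr.ne'
  have hint : ∀ x : K, IsIntegral (ZMod 2) x := fun x => Algebra.IsIntegral.isIntegral x
  have hex : ∀ x : K, ∃ c, c.length = (minpoly (ZMod 2) x).natDegree ∧ mon c = minpoly (ZMod 2) x :=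
    fun x => exists_mon _ (minpoly.monic (hint x))
  choose code hc1 hc2 using hex
  have h1 : (Finset.univ : Finset K).card ≤ r * (Finset.image code Finset.univ).card := by
    refine Finset.card_le_mul_card_image _ _ ?_
    intro c hc
    rw [Finset.mem_image] at hc
    obtain ⟨x, -, rfl⟩ := hc
    have h2 : (Finset.univ.filter fun a => code a = code x) ⊆
        ((minpoly (ZMod 2) x).map (algebraMap (ZMod 2) K)).roots.toFinset := by
      intro a ha
      rw [Finset.mem_filter] at ha
      have h3 : minpoly (ZMod 2) a = minpoly (ZMod 2) x := by
        rw [← hc2 a, ha.2, hc2 x]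
      rw [Multiset.mem_toFinset, mem_roots ((minpoly.monic (hint x)).map _).ne_zero, ← h3]
      rw [IsRoot, eval_map, ← aeval_def, minpoly.aeval]
    refine (Finset.card_le_card h2).trans ((Multiset.toFinset_card_le _).trans
      ((card_roots' _).trans ?_))
    rw [natDegree_map]
    have := minpoly.natDegree_le (A := ZMod 2) x
    rw [hfin] at this
    exact this
  have h2 : Finset.image code Finset.univ ⊆
      (fam r).toFinset ∪ (Finset.range (r / 2 + 1)).biUnion fun d => (allL d).toFinset := by
    intro c hc
    rw [Finset.mem_image] at hc
    obtain ⟨x, -, rfl⟩ := hc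
    rw [Finset.mem_union]
    have hd : (minpoly (ZMod 2) x).natDegree ∣ r := by
      have := minpoly.degree_dvd (hint x)
      rwa [hfin] at this
    by_cases he : (minpoly (ZMod 2) x).natDegree = r
    · left
      rw [List.mem_toFinset, mem_fam hr]
      refine ⟨(hc1 x).trans he, ?_⟩
      rw [hc2 x]
      exact minpoly.irreducible (hint x)
    · right
      rw [Finset.mem_biUnion]
      refine ⟨(minpoly (ZMod 2) x).natDegree, ?_, ?_⟩
      · rw [Finset.mem_range]
        obtain ⟨q, hq⟩ := hd
        have hq2 : 2 ≤ q := by
          rcases q with _ | _ | q
          · omega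
          · omega
          · omega
        have : (minpoly (ZMod 2) x).natDegree * 2 ≤ r := by
          calc (minpoly (ZMod 2) x).natDegree * 2 ≤ (minpoly (ZMod 2) x).natDegree * q :=
                Nat.mul_le_mul_left _ hq2
            _ = r := hq.symm
        omega
      · rw [List.mem_toFinset, mem_allL]
        exact hc1 x
  have h3 : ((fam r).toFinset ∪
      (Finset.range (r / 2 + 1)).biUnion fun d => (allL d).toFinset).card ≤
        (fam r).length + 2 ^ (r / 2 + 1) := by
    refine (Finset.card_union_le _ _).trans ?_
    refine Nat.add_le_add (List.toFinset_card_le _) ?_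
    refine Finset.card_biUnion_le.trans ?_
    have h4 : ∀ d ∈ Finset.range (r / 2 + 1), (allL d).toFinset.card ≤ 2 ^ d := fun d _ =>
      (List.toFinset_card_le _).trans (length_allL d).le
    refine (Finset.sum_le_sum h4).trans ?_
    rw [Nat.geomSum_eq (le_refl 2)]
    simp
  rw [Finset.card_univ, hcard] at h1
  exact h1.trans (Nat.mul_le_mul_left _ ((Finset.card_le_card h2).trans h3))

/-- Few irreducible polynomials of degree `r` divide a given polynomial. -/
theorem few_zeros {r : ℕ} (Z : Finset (List Bool))
    (hZ : ∀ c ∈ Z, c.length = r ∧ Irreducible (mon c)) {P : (ZMod 2)[X]} (hP : P ≠ 0)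
    (hd : ∀ c ∈ Z, mon c ∣ P) : Z.card * r ≤ P.natDegree := by
  classical
  have h1 : (Z : Set (List Bool)).Pairwise (Function.onFun IsCoprime mon) := by
    intro c hc c' hc' hne
    show IsCoprime (mon c) (mon c')
    rw [(hZ c hc).2.coprime_iff_not_dvd, (hZ c hc).2.dvd_irreducible_iff_associated (hZ c' hc').2]
    intro h
    exact hne (mon_inj (eq_of_monic_of_associated (mon_monic c) (mon_monic c') h))
  have h2 := Finset.prod_dvd_of_coprime h1 hd
  have h3 := natDegree_le_of_dvd h2 hP
  rw [natDegree_prod_of_monic _ _ fun c _ => mon_monic c] at h3
  rw [Finset.sum_congr rfl fun c hc => by rw [natDegree_mon, (hZ c hc).1]] at h3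
  simpa using h3

end Pool.Agent.W2helper86.LG
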